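import Pool.Agent.TH288.NB.Neg3

/-!
# No branch, no finitary factor map: conclusion
-/

set_option autoImplicit false

open MeasureTheory Set Filter
open scoped ENNReal Topology

namespace Pool.Agent.TH288.NB

open Pool.Agent.H534R3.NonBorel (br length_br br_eq_iff)

section Count

variable (X₀ : Set (ℤ → A)) (φ : (ℤ → A) → (ℤ → Bt)) (r : ℕ → ℕ) (u : List ℕ)

/-- with the last region as pivot, the encoded block in the regions depends only on the other
regions -/
theorem Gq_congr (hu : 1 ≤ u.length) {z z' : ℤ → Bt}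
    (h : ∀ j : ℤ, (NN u : ℤ) ≤ j → j < 2 * u.length * NN u → z j = z' j) {p : ℤ}
    (hp0 : (NN u : ℤ) ≤ p) (hp1 : p < MM u) :
    Gq u (2 * u.length - 1) 0 z p = Gq u (2 * u.length - 1) 0 z' p := by
  have hN : (0 : ℤ) < NN u := by exact_mod_cast NN_pos u
  have hoff : off (MM u) 0 p = p := by
    have := off_of_dvd (M := MM u) (θ := 0) (a := 0) (d := p) (by simp) (by omega) hp1
    rwa [zero_add] at this
  have hbase : base (MM u) 0 p = 0 := by
    have := base_of_dvd (M := MM u) (θ := 0) (a := 0) (d := p) (by simp) (by omega) hp1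
    rwa [zero_add] at this
  have hq : ((2 * u.length - 1 : ℕ) : ℤ) = 2 * u.length - 1 := by omega
  have e0 := Int.emod_nonneg p hN.ne'
  have e1 := Int.emod_lt_of_pos p hN
  rw [Gq_apply, Gq_apply, hoff, hbase]
  unfold gq
  refine Prod.ext rfl (Prod.ext ?_ ?_)
  · simp only
    split_ifs with hd
    · refine Finset.sum_congr rfl fun k hk => ?_
      rw [Finset.mem_erase, Finset.mem_range] at hk
      have hk2 : (k : ℤ) + 2 ≤ 2 * u.length := by omega
      refine h _ ?_ ?_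
      · nlinarith [Int.natCast_nonneg k]
      · nlinarith
    · refine h _ (by omega) ?_
      rw [zero_add]
      by_contra hcon
      push Not at hcon
      apply hd
      have h1 : (MM u : ℤ) = (2 * u.length + 1) * NN u := by unfold MM; push_cast; ring
      have h2 : p = (p - 2 * u.length * NN u) + 2 * u.length * NN u := by ring
      rw [hq, h2, Int.add_mul_ediv_right _ _ hN.ne', Int.ediv_eq_zero_of_lt (by omega) (by
        rw [h1] at hp1; nlinarith)]
      ring
  · simp only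
    rw [if_neg (by omega), if_neg (by omega)]

/-- extension of a finite assignment -/
def ext (v : Fin ((2 * u.length - 1) * NN u) → Bt) (j : ℤ) : Bt :=
  if h : 0 ≤ j - NN u ∧ j - NN u < ((2 * u.length - 1) * NN u : ℕ) then
    v ⟨(j - NN u).toNat, by omega⟩ else 0

/-- restriction -/
def res (z : ℤ → Bt) (m : Fin ((2 * u.length - 1) * NN u)) : Bt := z (NN u + (m : ℕ))

theorem ext_res (hu : 1 ≤ u.length) (z : ℤ → Bt) (j : ℤ) (h0 : (NN u : ℤ) ≤ j)
    (h1 : j < 2 * u.length * NN u) : ext u (res u z) j = z j := by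
  have h2 : (((2 * u.length - 1) * NN u : ℕ) : ℤ) = 2 * u.length * NN u - NN u := by
    have : ((2 * u.length - 1 : ℕ) : ℤ) = 2 * u.length - 1 := by omega
    push_cast
    rw [this]
    ring
  unfold ext res
  rw [dif_pos ⟨by omega, by omega⟩]
  congr 1
  simp only
  omega

theorem pos_bounds {k e : ℕ} (hk : k < 2 * u.length) (he : e < NN u) :
    (NN u : ℤ) ≤ pos u k e ∧ pos u k e < MM u := by
  have h1 := region_bounds u hk (Int.natCast_nonneg e) (by exact_mod_cast he)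
  refine ⟨?_, h1.2⟩
  unfold pos
  nlinarith [Int.natCast_nonneg k, Int.natCast_nonneg (NN u), Int.natCast_nonneg e]

theorem window_congr (hu : 1 ≤ u.length) {z z' : ℤ → Bt}
    (h : ∀ j : ℤ, (NN u : ℤ) ≤ j → j < 2 * u.length * NN u → z j = z' j) {k e : ℕ}
    (hk : k < 2 * u.length) (hG : GLoc r u k e) (j : ℤ) (hj : |j| ≤ (r (k / 2) : ℤ)) :
    shn (pos u k e) (Gq u (2 * u.length - 1) 0 z) j =
      shn (pos u k e) (Gq u (2 * u.length - 1) 0 z') j := by
  obtain ⟨h0, h1, -⟩ := hG j hj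
  have hb := region_bounds u hk h0 h1
  have hp : j + pos u k e = ((k : ℤ) + 1) * NN u + ((e : ℤ) + j) := by unfold pos; ring
  unfold shn
  rw [hp]
  refine Gq_congr u hu h ?_ hb.2
  nlinarith [Int.natCast_nonneg k, Int.natCast_nonneg (NN u)]

theorem Bad_congr (hu : 1 ≤ u.length) {z z' : ℤ → Bt}
    (h : ∀ j : ℤ, (NN u : ℤ) ≤ j → j < 2 * u.length * NN u → z j = z' j) {k e : ℕ}
    (hk : k < 2 * u.length) : Bad X₀ φ r u z k e ↔ Bad X₀ φ r u z' k e := by
  unfold Bad
  by_cases hG : GLoc r u k e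
  · rw [Und_congr X₀ φ (window_congr r u hu h hk hG)]
  · simp [hG]

open Classical in
/-- decided positions -/
noncomputable def Qs (z : ℤ → Bt) : Finset ℤ :=
  ((Finset.range (2 * u.length) ×ˢ Finset.range (NN u)).filter
    fun p => ¬ Bad X₀ φ r u z p.1 p.2).image fun p => pos u p.1 p.2

/-- decided values -/
noncomputable def Wv (z : ℤ → Bt) (p : ℤ) : Bt :=
  dec X₀ φ (r (((p / NN u).toNat - 1) / 2)) (shn p (Gq u (2 * u.length - 1) 0 z))

theorem card_Qs (z : ℤ → Bt) : (Qs X₀ φ r u z).card + Zc X₀ φ r u z = 2 * u.length * NN u := by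
  classical
  unfold Qs Zc
  rw [Finset.card_image_of_injOn, add_comm, Finset.card_filter_add_card_filter_not,
    Finset.card_product, Finset.card_range, Finset.card_range]
  rintro ⟨k, e⟩ h ⟨k', e'⟩ h' hpp
  simp only [Finset.coe_filter, Finset.mem_product, Finset.mem_range] at h h'
  obtain ⟨h1, h2⟩ := pos_inj u h.1.2 h'.1.2 hpp
  exact Prod.ext h1 h2

theorem Qs_congr (hu : 1 ≤ u.length) {z z' : ℤ → Bt}
    (h : ∀ j : ℤ, (NN u : ℤ) ≤ j → j < 2 * u.length * NN u → z j = z' j) :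
    Qs X₀ φ r u z = Qs X₀ φ r u z' := by
  classical
  unfold Qs
  congr 1
  refine Finset.filter_congr fun p hp => ?_
  rw [Finset.mem_product, Finset.mem_range] at hp
  rw [Bad_congr X₀ φ r u hu h hp.1]

theorem Wv_congr (hu : 1 ≤ u.length) {z z' : ℤ → Bt}
    (h : ∀ j : ℤ, (NN u : ℤ) ≤ j → j < 2 * u.length * NN u → z j = z' j) {p : ℤ}
    (hp : p ∈ Qs X₀ φ r u z) : Wv X₀ φ r u z p = Wv X₀ φ r u z' p := by
  classical
  unfold Qs at hp
  rw [Finset.mem_image] at hp
  obtain ⟨⟨k, e⟩, hke, rfl⟩ := hp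
  rw [Finset.mem_filter, Finset.mem_product, Finset.mem_range, Finset.mem_range] at hke
  obtain ⟨⟨hk, he⟩, hb⟩ := hke
  simp only at hk he hb
  have hG : GLoc r u k e := by
    by_contra hcon
    exact hb (Or.inl hcon)
  unfold Wv
  have h1 := (pos_div u (k := k) he).1
  simp only
  rw [h1]
  have h2 : ((k : ℤ) + 1).toNat - 1 = k := by omega
  rw [h2]
  exact dec_congr X₀ φ (window_congr r u hu h hk hG)

/-- the decided values are the actual values -/
theorem mem_cyl_of_good {z : ℤ → Bt}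
    (hz : ∀ j : ℤ, shn j (Gq u (2 * u.length - 1) 0 z) ∈ X₀ ∧
      φ (Gq u (2 * u.length - 1) 0 z) j = φ (shn j (Gq u (2 * u.length - 1) 0 z)) 0) :
    φ (Gq u (2 * u.length - 1) 0 z) ∈ cyl (Qs X₀ φ r u z) (Wv X₀ φ r u z) := by
  classical
  intro p hp
  unfold Qs at hp
  rw [Finset.mem_image] at hp
  obtain ⟨⟨k, e⟩, hke, rfl⟩ := hp
  rw [Finset.mem_filter, Finset.mem_product, Finset.mem_range, Finset.mem_range] at hke
  obtain ⟨⟨hk, he⟩, hb⟩ := hke
  simp only at hk he hb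
  have hU : ¬ Und X₀ φ (r (k / 2)) (shn (pos u k e) (Gq u (2 * u.length - 1) 0 z)) :=
    fun hcon => hb (Or.inr hcon)
  have h1 := (pos_div u (k := k) he).1
  simp only
  unfold Wv
  rw [h1]
  have h2 : ((k : ℤ) + 1).toNat - 1 = k := by omega
  rw [h2, (hz _).2]
  exact dec_spec X₀ φ (hz _).1 hU

/-- the set of possible images when few positions are bad is small -/
theorem exists_small_set (hu : 1 ≤ u.length) (K : ℕ) (hK : NN u = 4 * K) :
    ∃ O : Set (ℤ → Bt), MeasurableSet O ∧ P Bt O ≤ (2⁻¹) ^ K ∧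
      ∀ z, Zc X₀ φ r u z < 3 * K →
        cyl (Qs X₀ φ r u z) (Wv X₀ φ r u z) ⊆ O := by
  classical
  let V := Fin ((2 * u.length - 1) * NN u) → Bt
  let O : Set (ℤ → Bt) := ⋃ v : V, {y | Zc X₀ φ r u (ext u v) < 3 * K ∧
    y ∈ cyl (Qs X₀ φ r u (ext u v)) (Wv X₀ φ r u (ext u v))}
  have hm : ∀ v : V, MeasurableSet {y | Zc X₀ φ r u (ext u v) < 3 * K ∧
      y ∈ cyl (Qs X₀ φ r u (ext u v)) (Wv X₀ φ r u (ext u v))} := fun v =>
    (MeasurableSet.const _).inter (measurableSet_cyl _ _)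
  refine ⟨O, MeasurableSet.iUnion hm, ?_, ?_⟩
  · have h1 : ∀ v : V, P Bt {y | Zc X₀ φ r u (ext u v) < 3 * K ∧
        y ∈ cyl (Qs X₀ φ r u (ext u v)) (Wv X₀ φ r u (ext u v))} ≤
        (2⁻¹) ^ ((2 * u.length - 1) * NN u + K) := by
      intro v
      by_cases hZ : Zc X₀ φ r u (ext u v) < 3 * K
      · refine (measure_mono (fun y hy => hy.2)).trans ?_
        rw [P_cyl]
        have hc := card_Qs X₀ φ r u (ext u v)
        have h2 : (2 * u.length - 1) * NN u + K ≤ (Qs X₀ φ r u (ext u v)).card := by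
          have h3 : (2 * u.length - 1) * NN u + NN u = 2 * u.length * NN u := by
            obtain ⟨m, hm⟩ := Nat.exists_eq_add_of_le hu
            rw [hm]
            have : 2 * (1 + m) - 1 = 2 * m + 1 := by omega
            rw [this]; ring
          omega
        simp only [Fintype.card_fin]
        exact pow_le_pow_right_of_le_one' (by norm_num) h2
      · have : {y | Zc X₀ φ r u (ext u v) < 3 * K ∧
            y ∈ cyl (Qs X₀ φ r u (ext u v)) (Wv X₀ φ r u (ext u v))} = ∅ := by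
          rw [eq_empty_iff_forall_notMem]
          intro y hy
          exact hZ hy.1
        rw [this, measure_empty]
        exact zero_le
    refine (measure_iUnion_le _).trans ?_
    rw [tsum_fintype]
    refine (Finset.sum_le_sum fun v _ => h1 v).trans ?_
    rw [Finset.sum_const, Finset.card_univ, nsmul_eq_mul]
    have hcard : Fintype.card V = 2 ^ ((2 * u.length - 1) * NN u) := by
      simp [V]
    rw [hcard, pow_add, ← mul_assoc]
    push_cast
    rw [← mul_pow, ENNReal.mul_inv_cancel (by simp) (by simp), one_pow, one_mul]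
  · intro z hz y hy
    have hag : ∀ j : ℤ, (NN u : ℤ) ≤ j → j < 2 * u.length * NN u → z j = ext u (res u z) j :=
      fun j h0 h1 => (ext_res u hu z j h0 h1).symm
    have hQ := Qs_congr X₀ φ r u hu hag
    refine mem_iUnion.2 ⟨res u z, ?_, ?_⟩
    · have h1 := card_Qs X₀ φ r u z
      have h2 := card_Qs X₀ φ r u (ext u (res u z))
      rw [← hQ] at h2
      omega
    · intro p hp
      rw [← hQ] at hp
      rw [hy p hp]
      exact Wv_congr X₀ φ r u hu hag hp

end Count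

theorem numeric (e n : ℕ) (hn : n ≤ e) :
    3 * ((2 * n + 1) * 2 ^ (e + 10)) * 2 ^ (e + 2) < 2 ^ (2 ^ (e + 8)) := by
  have h1 : 2 * n + 1 ≤ 2 ^ (e + 1) := by
    have : e + 1 ≤ 2 ^ e := Nat.lt_two_pow_self
    rw [pow_succ]; omega
  have h2 : 3 * ((2 * n + 1) * 2 ^ (e + 10)) * 2 ^ (e + 2) ≤
      2 ^ 2 * (2 ^ (e + 1) * 2 ^ (e + 10)) * 2 ^ (e + 2) := by gcongr; norm_num
  have h3 : 2 ^ 2 * (2 ^ (e + 1) * 2 ^ (e + 10)) * 2 ^ (e + 2) = 2 ^ (3 * e + 15) := by
    rw [← pow_add, ← pow_add, ← pow_add]; congr 1; ring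
  rw [h3] at h2
  refine h2.trans_lt (Nat.pow_lt_pow_right (by norm_num) ?_)
  have h4 : e + 1 ≤ 2 ^ e := Nat.lt_two_pow_self
  have h5 : 2 ^ (e + 8) = 2 ^ e * 256 := by rw [pow_add]; norm_num
  rw [h5]; omega

/-- **Without a branch there is no finitary factor map.** -/
theorem not_fac (t : List ℕ → Bool) (ht : ¬ ∃ f : ℕ → ℕ, ∀ n, t (br f n) = true) :
    ¬ Fac (mu t) := by
  intro hfac
  obtain ⟨φ, X₀, hφ, hmap, hae, hfin⟩ := fac_normal hfac
  -- absolute continuity of the components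
  have hcomp : ∀ (e : ℕ) (S : Set (ℤ → A)), ((2 : ℝ≥0∞)⁻¹) ^ (e + 2) *
      (avg (e + 1) (pureT e) S + nuT t (Denumerable.ofNat (List ℕ) e) S) ≤ mu t S := by
    intro e S
    have h1 := Measure.le_sum (fun e : ℕ => ((2 : ℝ≥0∞)⁻¹) ^ (e + 2) •
      (avg (e + 1) (pureT e) + nuT t (Denumerable.ofNat (List ℕ) e))) e S
    exact h1
  have hpow : ∀ e : ℕ, ((2 : ℝ≥0∞)⁻¹) ^ e ≠ 0 := fun e => by simp
  have havg : ∀ (M : ℕ) (G : ℤ → (ℤ → Bt) → (ℤ → A)) (θ : ℕ) (_ : θ < M) (S : Set (ℤ → A)),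
      ((M : ℝ≥0∞))⁻¹ * (P Bt).map (G θ) S ≤ avg M G S := by
    intro M G θ hθ S
    unfold avg
    rw [Measure.finsetSum_apply]
    have := Finset.single_le_sum (f := fun θ : ℕ => (((M : ℝ≥0∞))⁻¹ • (P Bt).map (G θ)) S)
      (fun _ _ => zero_le) (Finset.mem_range.2 hθ)
    simpa [Measure.smul_apply] using this
  -- pure sequences
  have hpure : ∀ (i θ : ℕ), θ < i + 1 → ∀ᵐ z ∂(P Bt), pureT i θ z ∈ X₀ := by
    intro i θ hθ
    have h1 : ∀ᵐ x ∂(mu t), x ∈ X₀ := by
      filter_upwards [hae] with x hx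
      have := (hx 0).1
      have h0 : shn 0 x = x := by funext i; simp [shn]
      rwa [h0] at this
    obtain ⟨N, hN1, hN2, hN3⟩ := exists_measurable_superset_of_null (show mu t X₀ᶜ = 0 from h1)
    have h2 := hcomp i N
    rw [hN3, nonpos_iff_eq_zero, mul_eq_zero] at h2
    have h3 : avg (i + 1) (pureT i) N = 0 := by
      rcases h2 with h2 | h2
      · exact absurd h2 (hpow _)
      · exact (add_eq_zero.1 h2).1
    have h4 := havg (i + 1) (pureT i) θ hθ N
    rw [h3, nonpos_iff_eq_zero, mul_eq_zero] at h4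
    have h5 : (P Bt).map (pureT i θ) N = 0 := by
      rcases h4 with h4 | h4
      · exact absurd h4 (by simp)
      · exact h4
    rw [Measure.map_apply (measurable_pureT i θ) hN2] at h5
    refine measure_mono_null ?_ h5
    intro z hz
    exact hN1 hz
  -- radii
  have hrad : ∀ i : ℕ, ∃ r : ℕ, ∀ θ : ℤ, P Bt {z | Und X₀ φ r (pureT i θ z)} ≤ (2⁻¹) ^ (i + 5) :=
    fun i => exists_radius X₀ φ hfin i (hpure i) _ (pos_iff_ne_zero.2 (hpow _))
  choose r hr using hrad
  let g : ℕ → ℕ := fun i => (2 * r i + 1) * 2 ^ (i + 5)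
  obtain ⟨n, hn⟩ := exists_obs t ht g
  set u := br g (n + 1) with hu
  have hlen : u.length = n + 1 := length_br g (n + 1)
  have hu1 : 1 ≤ u.length := by omega
  have hgetD : ∀ i < u.length, u.getD i 0 = g i := fun i hi => getD_br g (by omega)
  obtain ⟨henc1, henc2⟩ := le_encode_list u
  set K := 2 ^ (Encodable.encode u + 8) with hKdef
  have hK : NN u = 4 * K := by
    unfold NN
    rw [hKdef, show Encodable.encode u + 10 = Encodable.encode u + 8 + 2 by ring, pow_add _ _ 2]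
    ring
  have hencN : Encodable.encode u + 1 ≤ NN u := by
    have h1 : Encodable.encode u + 1 ≤ 2 ^ Encodable.encode u := Nat.lt_two_pow_self
    have h2 : 2 ^ Encodable.encode u ≤ NN u := Nat.pow_le_pow_right (by norm_num) (by omega)
    exact h1.trans h2
  have hUN : ∀ i < u.length, u.getD i 0 + 1 ≤ NN u := by
    intro i hi
    have := henc2 i hi
    omega
  have hgU : ∀ i < u.length, (2 * r i + 1) * 2 ^ (i + 5) ≤ u.getD i 0 + 1 := by
    intro i hi
    rw [hgetD i hi]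
    exact Nat.le_succ _
  have hsum := sum_bad_le X₀ φ r u hr hUN hgU
  have hfew := prob_few X₀ φ r u K hK hsum
  obtain ⟨O, hOm, hO, hOsub⟩ := exists_small_set X₀ φ r u hu1 K hK
  set q := 2 * u.length - 1 with hq
  -- the encoded sequences are generic
  have hlow : ∀ S : Set (ℤ → A), (P Bt).map (Gq u q 0) S ≤
      ((MM u * 2 ^ (Encodable.encode u + 2) : ℕ) : ℝ≥0∞) * mu t S := by
    intro S
    have h1 := hcomp (Encodable.encode u) S
    rw [Denumerable.ofNat_encode] at h1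
    have h2 : nuT t u = avg (MM u) (Gq u 0) := by
      unfold nuT
      rw [if_pos hn]
    have h3 := havg (MM u) (Gq u 0) 0 (MM_pos u) S
    rw [← h2] at h3
    have h4 : (P Bt).map (Gq u q 0) = (P Bt).map (Gq u 0 ((0 : ℕ) : ℤ)) :=
      map_Gq_eq u q 0 (by omega) (by omega) 0
    have hMne : (MM u : ℝ≥0∞) ≠ 0 := by
      have := MM_pos u
      simp only [ne_eq, Nat.cast_eq_zero]
      omega
    have h5 : (P Bt).map (Gq u q 0) S ≤ MM u * nuT t u S := by
      rw [h4]
      calc (P Bt).map (Gq u 0 ((0 : ℕ) : ℤ)) S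
          = MM u * (((MM u : ℝ≥0∞))⁻¹ * (P Bt).map (Gq u 0 ((0 : ℕ) : ℤ)) S) := by
            rw [← mul_assoc, ENNReal.mul_inv_cancel hMne (ENNReal.natCast_ne_top _), one_mul]
        _ ≤ MM u * nuT t u S := by gcongr
    have h6 : nuT t u S ≤ 2 ^ (Encodable.encode u + 2) * mu t S := by
      calc nuT t u S = 2 ^ (Encodable.encode u + 2) *
            (((2 : ℝ≥0∞)⁻¹) ^ (Encodable.encode u + 2) * nuT t u S) := by
            rw [← mul_assoc, ← mul_pow, ENNReal.mul_inv_cancel (by simp) (by simp), one_pow, one_mul]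
        _ ≤ 2 ^ (Encodable.encode u + 2) * mu t S := by
            gcongr
            refine le_trans ?_ h1
            gcongr
            exact le_add_self
    calc (P Bt).map (Gq u q 0) S ≤ MM u * nuT t u S := h5
      _ ≤ MM u * (2 ^ (Encodable.encode u + 2) * mu t S) := by gcongr
      _ = ((MM u * 2 ^ (Encodable.encode u + 2) : ℕ) : ℝ≥0∞) * mu t S := by push_cast; ring
  have hgen : ∀ᵐ z ∂(P Bt), ∀ j : ℤ, shn j (Gq u q 0 z) ∈ X₀ ∧
      φ (Gq u q 0 z) j = φ (shn j (Gq u q 0 z)) 0 := by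
    obtain ⟨N, hN1, hN2, hN3⟩ := exists_measurable_superset_of_null
      (show mu t {x | ∀ j : ℤ, shn j x ∈ X₀ ∧ φ x j = φ (shn j x) 0}ᶜ = 0 from hae)
    have h1 := hlow N
    rw [hN3, mul_zero, nonpos_iff_eq_zero, Measure.map_apply (measurable_Gq u q 0) hN2] at h1
    refine measure_mono_null ?_ h1
    intro z hz
    exact hN1 hz
  have hsub : P Bt {z | Zc X₀ φ r u z < 3 * K} ≤ P Bt (Gq u q 0 ⁻¹' (φ ⁻¹' O)) := by
    refine measure_mono_ae ?_
    filter_upwards [hgen] with z hz hzK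
    exact hOsub z hzK (mem_cyl_of_good X₀ φ r u hz)
  have h7 : P Bt (Gq u q 0 ⁻¹' (φ ⁻¹' O)) ≤
      ((MM u * 2 ^ (Encodable.encode u + 2) : ℕ) : ℝ≥0∞) * (2⁻¹) ^ K := by
    rw [← Measure.map_apply (measurable_Gq u q 0) (hφ hOm)]
    refine (hlow _).trans ?_
    gcongr
    rw [← Measure.map_apply hφ hOm, hmap]
    exact hO
  have h8 : (1 : ℝ≥0∞) ≤ 3 * (((MM u * 2 ^ (Encodable.encode u + 2) : ℕ) : ℝ≥0∞) * (2⁻¹) ^ K) := by
    refine hfew.trans ?_
    gcongr
    exact hsub.trans h7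
  have h9 : ((2 ^ K : ℕ) : ℝ≥0∞) ≤ ((3 * (MM u * 2 ^ (Encodable.encode u + 2)) : ℕ) : ℝ≥0∞) := by
    calc ((2 ^ K : ℕ) : ℝ≥0∞) = 2 ^ K * 1 := by push_cast; ring
      _ ≤ 2 ^ K * (3 * (((MM u * 2 ^ (Encodable.encode u + 2) : ℕ) : ℝ≥0∞) * (2⁻¹) ^ K)) := by
          gcongr
      _ = (2 ^ K * (2⁻¹) ^ K) * (3 * ((MM u * 2 ^ (Encodable.encode u + 2) : ℕ) : ℝ≥0∞)) := by ring
      _ = ((3 * (MM u * 2 ^ (Encodable.encode u + 2)) : ℕ) : ℝ≥0∞) := by
          rw [← mul_pow, ENNReal.mul_inv_cancel (by simp) (by simp), one_pow, one_mul]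
          push_cast; ring
  have h10 : 2 ^ K ≤ 3 * (MM u * 2 ^ (Encodable.encode u + 2)) := by exact_mod_cast h9
  have h11 := numeric (Encodable.encode u) u.length henc1
  unfold MM NN at h10
  rw [← hKdef] at h11
  rw [← mul_assoc] at h10
  omega

end Pool.Agent.TH288.NB
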