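import Pool.Agent.TH288.NB.Neg2

/-!
# No branch, no finitary factor map
-/

set_option autoImplicit false

open MeasureTheory Set Filter
open scoped ENNReal Topology

namespace Pool.Agent.TH288.NB

open Pool.Agent.H534R3.NonBorel (br length_br br_eq_iff)

theorem le_encode_list (u : List ℕ) : u.length ≤ Encodable.encode u ∧
    ∀ i < u.length, u.getD i 0 < Encodable.encode u := by
  induction u with
  | nil => simp
  | cons a l ih =>
    rw [Encodable.encode_list_cons]
    have h1 := Nat.left_le_pair (Encodable.encode a) (Encodable.encode l)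
    have h2 := Nat.right_le_pair (Encodable.encode a) (Encodable.encode l)
    refine ⟨?_, fun i hi => ?_⟩
    · rw [List.length_cons]; omega
    · rcases i with _ | i
      · simp only [List.getD_cons_zero]
        have : Encodable.encode a = a := rfl
        omega
      · simp only [List.getD_cons_succ]
        have := ih.2 i (by simpa using hi)
        omega

section Count

variable (X₀ : Set (ℤ → A)) (φ : (ℤ → A) → (ℤ → Bt)) (r : ℕ → ℕ) (u : List ℕ)

/-- bad positions for `z` -/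
def Bad (z : ℤ → Bt) (k e : ℕ) : Prop :=
  ¬ GLoc r u k e ∨ Und X₀ φ (r (k / 2)) (shn (pos u k e) (Gq u (2 * u.length - 1) 0 z))

open Classical in
/-- number of bad positions -/
noncomputable def Zc (z : ℤ → Bt) : ℕ :=
  ((Finset.range (2 * u.length) ×ˢ Finset.range (NN u)).filter
    fun p => Bad X₀ φ r u z p.1 p.2).card

theorem measurable_shn_Gq (k e : ℕ) :
    Measurable fun z : ℤ → Bt => shn (pos u k e) (Gq u (2 * u.length - 1) 0 z) :=
  (measurable_shn _).comp (measurable_Gq u _ 0)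

theorem measurableSet_Bad (k e : ℕ) : MeasurableSet {z | Bad X₀ φ r u z k e} := by
  have : {z | Bad X₀ φ r u z k e} = {_z : ℤ → Bt | ¬ GLoc r u k e} ∪
      (fun z => shn (pos u k e) (Gq u (2 * u.length - 1) 0 z)) ⁻¹'
        {x | Und X₀ φ (r (k / 2)) x} := by
    ext z; rfl
  rw [this]
  exact (MeasurableSet.const _).union
    ((measurable_shn_Gq u k e) (measurableSet_Und X₀ φ _))

theorem le_mul_inv_pow {a b : ℕ} {m : ℕ} (h : a * 2 ^ m ≤ b) :
    (a : ℝ≥0∞) ≤ b * (2⁻¹) ^ m := by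
  have h1 : ((a : ℝ≥0∞) * 2 ^ m) ≤ b := by exact_mod_cast h
  calc (a : ℝ≥0∞) = a * 2 ^ m * (2⁻¹) ^ m := by
        rw [mul_assoc, ← mul_pow, ENNReal.mul_inv_cancel (by simp) (by simp), one_pow, mul_one]
    _ ≤ b * (2⁻¹) ^ m := by gcongr

/-- expected number of bad positions -/
theorem sum_bad_le
    (hr : ∀ i, ∀ θ : ℤ, P Bt {z | Und X₀ φ (r i) (pureT i θ z)} ≤ (2⁻¹) ^ (i + 5))
    (hU : ∀ i < u.length, u.getD i 0 + 1 ≤ NN u)
    (hg : ∀ i < u.length, (2 * r i + 1) * 2 ^ (i + 5) ≤ u.getD i 0 + 1) :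
    ∑ p ∈ Finset.range (2 * u.length) ×ˢ Finset.range (NN u),
      P Bt {z | Bad X₀ φ r u z p.1 p.2} ≤ NN u * 2⁻¹ := by
  classical
  rw [Finset.sum_product]
  have h1 : ∀ k ∈ Finset.range (2 * u.length), ∑ e ∈ Finset.range (NN u),
      P Bt {z | Bad X₀ φ r u z k e} ≤ (NN u : ℝ≥0∞) * (2⁻¹) ^ (k / 2 + 3) := by
    intro k hk
    rw [Finset.mem_range] at hk
    have hk2 : k / 2 < u.length := by omega
    have h2 : ∀ e ∈ Finset.range (NN u), P Bt {z | Bad X₀ φ r u z k e} ≤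
        (if ¬ GLoc r u k e then 1 else 0) + (2⁻¹) ^ (k / 2 + 5) := by
      intro e he
      rw [Finset.mem_range] at he
      by_cases hG : GLoc r u k e
      · have h3 : {z | Bad X₀ φ r u z k e} =
            {z | Und X₀ φ (r (k / 2)) (shn (pos u k e) (Gq u (2 * u.length - 1) 0 z))} := by
          ext z
          constructor
          · rintro (h | h)
            · exact absurd hG h
            · exact h
          · exact fun h => Or.inr h
        rw [h3, if_neg (not_not.2 hG), zero_add]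
        exact prob_und r u X₀ φ (fun i => (2⁻¹) ^ (i + 5)) hr (by omega) hk he hG
      · rw [if_pos hG]
        exact prob_le_one.trans le_self_add
    refine (Finset.sum_le_sum h2).trans ?_
    rw [Finset.sum_add_distrib, Finset.sum_const, Finset.card_range, ← Finset.sum_filter,
      Finset.sum_const, nsmul_eq_mul, nsmul_eq_mul, mul_one]
    have h4 := le_mul_inv_pow (card_not_GLoc r u k (hU _ hk2) (hg _ hk2))
    refine (add_le_add_left h4 _).trans ?_
    push_cast
    rw [mul_comm (3 : ℝ≥0∞), mul_assoc, ← mul_add]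
    refine mul_le_mul_right ?_ _
    have h5 : ((2 : ℝ≥0∞)⁻¹) ^ (k / 2 + 3) = 4 * (2⁻¹) ^ (k / 2 + 5) := by
      rw [show k / 2 + 5 = k / 2 + 3 + 2 by ring, pow_add _ (k / 2 + 3) 2, mul_comm (4 : ℝ≥0∞),
        mul_assoc]
      have : ((2 : ℝ≥0∞)⁻¹) ^ 2 * 4 = 1 := by
        have : (4 : ℝ≥0∞) = 2 ^ 2 := by norm_num
        rw [this, ← mul_pow, ENNReal.inv_mul_cancel (by simp) (by simp), one_pow]
      rw [this, mul_one]
    rw [h5]
    have : (4 : ℝ≥0∞) = 3 + 1 := by norm_num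
    rw [this, add_mul, one_mul]
  refine (Finset.sum_le_sum h1).trans ?_
  rw [← Finset.mul_sum]
  refine mul_le_mul_right ?_ _
  exact le_self_add.trans (sum_half u.length).le

/-- Markov: with probability at least one third few positions are bad -/
theorem prob_few (K : ℕ) (hK : NN u = 4 * K)
    (hsum : ∑ p ∈ Finset.range (2 * u.length) ×ˢ Finset.range (NN u),
      P Bt {z | Bad X₀ φ r u z p.1 p.2} ≤ NN u * 2⁻¹) :
    1 ≤ 3 * P Bt {z | Zc X₀ φ r u z < 3 * K} := by
  classical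
  have hK0 : 0 < K := by have := NN_pos u; omega
  have hmeasZ : Measurable fun z => (Zc X₀ φ r u z : ℝ≥0∞) := by
    have : (fun z => (Zc X₀ φ r u z : ℝ≥0∞)) = fun z =>
        ∑ p ∈ Finset.range (2 * u.length) ×ˢ Finset.range (NN u),
          ({z | Bad X₀ φ r u z p.1 p.2} : Set (ℤ → Bt)).indicator (fun _ => (1 : ℝ≥0∞)) z := by
      funext z
      unfold Zc
      rw [Finset.card_filter]
      push_cast
      refine Finset.sum_congr rfl fun p _ => ?_
      by_cases h : Bad X₀ φ r u z p.1 p.2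
      · rw [if_pos h, Set.indicator_of_mem (show z ∈ {z | Bad X₀ φ r u z p.1 p.2} from h)]
      · rw [if_neg h, Set.indicator_of_notMem (show z ∉ {z | Bad X₀ φ r u z p.1 p.2} from h)]
    rw [this]
    exact Finset.measurable_sum _ fun p _ =>
      measurable_const.indicator (measurableSet_Bad X₀ φ r u p.1 p.2)
  have hint : ∫⁻ z, (Zc X₀ φ r u z : ℝ≥0∞) ∂(P Bt) ≤ NN u * 2⁻¹ := by
    have : ∀ z, (Zc X₀ φ r u z : ℝ≥0∞) =
        ∑ p ∈ Finset.range (2 * u.length) ×ˢ Finset.range (NN u),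
          ({z | Bad X₀ φ r u z p.1 p.2} : Set (ℤ → Bt)).indicator (fun _ => (1 : ℝ≥0∞)) z := by
      intro z
      unfold Zc
      rw [Finset.card_filter]
      push_cast
      refine Finset.sum_congr rfl fun p _ => ?_
      by_cases h : Bad X₀ φ r u z p.1 p.2
      · rw [if_pos h, Set.indicator_of_mem (show z ∈ {z | Bad X₀ φ r u z p.1 p.2} from h)]
      · rw [if_neg h, Set.indicator_of_notMem (show z ∉ {z | Bad X₀ φ r u z p.1 p.2} from h)]
    simp only [this]
    rw [lintegral_finsetSum _ fun p _ =>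
      measurable_const.indicator (measurableSet_Bad X₀ φ r u p.1 p.2)]
    refine le_trans (le_of_eq ?_) hsum
    refine Finset.sum_congr rfl fun p _ => ?_
    rw [lintegral_indicator (measurableSet_Bad X₀ φ r u p.1 p.2)]
    simp
  have hmk := mul_meas_ge_le_lintegral (μ := P Bt) hmeasZ ((3 * K : ℕ) : ℝ≥0∞)
  have hNK : (NN u : ℝ≥0∞) * 2⁻¹ = ((2 * K : ℕ) : ℝ≥0∞) := by
    rw [hK]
    have : ((4 * K : ℕ) : ℝ≥0∞) = ((2 * K : ℕ) : ℝ≥0∞) * 2 := by push_cast; ring
    rw [this, mul_assoc, ENNReal.mul_inv_cancel (by simp) (by simp), mul_one]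
  have hcompl : P Bt {z | ((3 * K : ℕ) : ℝ≥0∞) ≤ (Zc X₀ φ r u z : ℝ≥0∞)} +
      P Bt {z | Zc X₀ φ r u z < 3 * K} ≥ 1 := by
    have h1 : (univ : Set (ℤ → Bt)) ⊆ {z | ((3 * K : ℕ) : ℝ≥0∞) ≤ (Zc X₀ φ r u z : ℝ≥0∞)} ∪
        {z | Zc X₀ φ r u z < 3 * K} := by
      intro z _
      rcases lt_or_ge (Zc X₀ φ r u z) (3 * K) with h | h
      · exact Or.inr h
      · exact Or.inl (by exact_mod_cast h)
    have h2 := (measure_mono (μ := P Bt) h1).trans (measure_union_le _ _)
    rwa [measure_univ] at h2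
  set p := P Bt {z | ((3 * K : ℕ) : ℝ≥0∞) ≤ (Zc X₀ φ r u z : ℝ≥0∞)} with hp
  set q := P Bt {z | Zc X₀ φ r u z < 3 * K} with hq
  have h3 : ((3 * K : ℕ) : ℝ≥0∞) * p ≤ ((2 * K : ℕ) : ℝ≥0∞) := by
    rw [← hNK]; exact hmk.trans hint
  have hKne : (K : ℝ≥0∞) ≠ 0 := by exact_mod_cast hK0.ne'
  have hKtop : (K : ℝ≥0∞) ≠ ⊤ := ENNReal.natCast_ne_top K
  have h4 : (3 : ℝ≥0∞) * p ≤ 2 := by
    have : (K : ℝ≥0∞) * (3 * p) ≤ K * 2 := by
      have e1 : ((3 * K : ℕ) : ℝ≥0∞) * p = K * (3 * p) := by push_cast; ring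
      have e2 : ((2 * K : ℕ) : ℝ≥0∞) = K * 2 := by push_cast; ring
      rw [← e1, ← e2]; exact h3
    exact (ENNReal.mul_le_mul_iff_right hKne hKtop).1 this
  have h5 : (3 : ℝ≥0∞) ≤ 2 + 3 * q := by
    calc (3 : ℝ≥0∞) = 3 * 1 := by ring
      _ ≤ 3 * (p + q) := by gcongr
      _ = 3 * p + 3 * q := by ring
      _ ≤ 2 + 3 * q := by gcongr
  have h6 : (2 : ℝ≥0∞) + 1 ≤ 2 + 3 * q := by
    have : (2 : ℝ≥0∞) + 1 = 3 := by norm_num
    rw [this]; exact h5
  exact (ENNReal.add_le_add_iff_left (by simp)).1 h6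

end Count

end Pool.Agent.TH288.NB
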