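import Mathlib

/-!
# Uniform product measure on bi-infinite sequences, and maps preserving it
-/

set_option autoImplicit false

open MeasureTheory Set
open scoped ENNReal

namespace Pool.Agent.TH288.NB

section Basic

variable {α : Type*} [Fintype α] [Nonempty α] [MeasurableSpace α] [MeasurableSingletonClass α]

/-- the uniform probability measure on a finite alphabet -/
noncomputable def unif (α : Type*) [Fintype α] [MeasurableSpace α] : Measure α :=
  ((Fintype.card α : ℝ≥0∞))⁻¹ • Measure.count

instance : IsProbabilityMeasure (unif α) := by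
  constructor
  rw [unif, Measure.smul_apply, Measure.count_univ]
  simp only [ENat.card_eq_coe_fintype_card, smul_eq_mul]
  exact ENNReal.inv_mul_cancel (by simp) (by simp)

omit [Nonempty α] in
theorem unif_singleton (a : α) : unif α {a} = (Fintype.card α : ℝ≥0∞)⁻¹ := by
  rw [unif, Measure.smul_apply, Measure.count_singleton]; simp

/-- the i.i.d. uniform measure on `ℤ → α` -/
noncomputable def P (α : Type*) [Fintype α] [Nonempty α] [MeasurableSpace α]
    [MeasurableSingletonClass α] : Measure (ℤ → α) :=
  Measure.infinitePi (fun _ : ℤ => unif α)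

instance : IsProbabilityMeasure (P α) := by unfold P; infer_instance

/-- cylinder -/
def cyl {β : Type*} (s : Finset ℤ) (w : ℤ → β) : Set (ℤ → β) := {x | ∀ i ∈ s, x i = w i}

theorem cyl_eq_pi {β : Type*} (s : Finset ℤ) (w : ℤ → β) :
    cyl s w = Set.pi s (fun i => {w i}) := by
  ext x; simp [cyl, Set.pi]

theorem measurableSet_cyl {β : Type*} [MeasurableSpace β] [MeasurableSingletonClass β]
    (s : Finset ℤ) (w : ℤ → β) : MeasurableSet (cyl s w) := by
  rw [cyl_eq_pi]
  exact MeasurableSet.pi s.countable_toSet fun _ _ => measurableSet_singleton _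

theorem P_cyl (s : Finset ℤ) (w : ℤ → α) :
    P α (cyl s w) = ((Fintype.card α : ℝ≥0∞)⁻¹) ^ s.card := by
  rw [cyl_eq_pi, P, Measure.infinitePi_pi _ (fun _ _ => measurableSet_singleton _)]
  simp [unif_singleton]

end Basic

section Uniq

variable {β : Type*} [Fintype β] [MeasurableSpace β] [MeasurableSingletonClass β]

/-- two finite measures on `ℤ → β` agreeing on cylinders over a cofinal family of windows agree -/
theorem measure_eq_of_windows (μ ν : Measure (ℤ → β)) [IsFiniteMeasure μ] [IsFiniteMeasure ν]
    (L : ℕ → Finset ℤ) (hL : ∀ s : Finset ℤ, ∃ m, s ⊆ L m)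
    (h : ∀ m (w : ℤ → β), μ (cyl (L m) w) = ν (cyl (L m) w)) : μ = ν := by
  classical
  rcases isEmpty_or_nonempty β with hβ | hβ
  · have : IsEmpty (ℤ → β) := ⟨fun f => hβ.false (f 0)⟩
    exact Subsingleton.elim _ _
  have key : ∀ I : Finset ℤ, μ.map (Finset.restrict (π := fun _ => β) I) =
      ν.map (Finset.restrict (π := fun _ => β) I) := by
    intro I
    obtain ⟨m, hm⟩ := hL I
    have h1 : μ.map (Finset.restrict (π := fun _ => β) (L m)) =
        ν.map (Finset.restrict (π := fun _ => β) (L m)) := by
      refine Measure.ext_of_singleton fun v => ?_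
      rw [Measure.map_apply (by fun_prop) (measurableSet_singleton v),
        Measure.map_apply (by fun_prop) (measurableSet_singleton v)]
      let w : ℤ → β := fun i => if hi : i ∈ L m then v ⟨i, hi⟩ else Classical.arbitrary β
      have hw : (Finset.restrict (π := fun _ => β) (L m)) ⁻¹' {v} = cyl (L m) w := by
        ext x
        simp only [mem_preimage, mem_singleton_iff]
        constructor
        · intro hx i hi
          simp only [w, hi, dif_pos, ← hx, Finset.restrict]
        · intro hx
          funext ⟨i, hi⟩
          simp only [Finset.restrict]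
          rw [hx i hi]
          simp [w, hi]
      rw [hw, h]
    have h2 : ∀ ρ : Measure (ℤ → β), ρ.map (Finset.restrict (π := fun _ => β) I) =
        (ρ.map (Finset.restrict (π := fun _ => β) (L m))).map
          (Finset.restrict₂ (π := fun _ => β) hm) := by
      intro ρ
      rw [Measure.map_map (by fun_prop) (by fun_prop)]
      rfl
    rw [h2 μ, h1, ← h2]
  have hμ : IsProjectiveLimit μ
      (fun I : Finset ℤ => μ.map (Finset.restrict (π := fun _ => β) I)) := fun I => rfl
  have hν : IsProjectiveLimit ν
      (fun I : Finset ℤ => μ.map (Finset.restrict (π := fun _ => β) I)) := fun I => (key I).symm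
  exact hμ.unique hν

end Uniq

section Maps

variable {α : Type*} [Fintype α] [Nonempty α] [MeasurableSpace α] [MeasurableSingletonClass α]

/-- symmetric windows -/
theorem exists_Icc_superset (s : Finset ℤ) : ∃ m : ℕ, s ⊆ Finset.Icc (-(m : ℤ)) m := by
  refine ⟨s.sup fun i => i.natAbs, fun i hi => ?_⟩
  have : i.natAbs ≤ s.sup fun i => i.natAbs := Finset.le_sup (f := fun i : ℤ => i.natAbs) hi
  rw [Finset.mem_Icc]
  omega

/-- a bijection acting locally on a cofinal family of windows preserves the uniform measure -/
theorem map_P_of_local (R R' : (ℤ → α) → (ℤ → α)) (hR : Measurable R)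
    (L : ℕ → Finset ℤ) (hL : ∀ s : Finset ℤ, ∃ m, s ⊆ L m)
    (h1 : ∀ x, R (R' x) = x) (h2 : ∀ x, R' (R x) = x)
    (l1 : ∀ m x y, (∀ i ∈ L m, x i = y i) → ∀ i ∈ L m, R x i = R y i)
    (l2 : ∀ m x y, (∀ i ∈ L m, x i = y i) → ∀ i ∈ L m, R' x i = R' y i) :
    (P α).map R = P α := by
  have : IsProbabilityMeasure ((P α).map R) := Measure.isProbabilityMeasure_map hR.aemeasurable
  refine measure_eq_of_windows _ _ L hL fun m w => ?_
  rw [Measure.map_apply hR (measurableSet_cyl _ _), P_cyl]
  have : R ⁻¹' cyl (L m) w = cyl (L m) (R' w) := by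
    ext x
    constructor
    · intro hx i hi
      have := l2 m (R x) w hx i hi
      rwa [h2] at this
    · intro hx i hi
      have := l1 m x (R' w) hx i hi
      rwa [h1] at this
  rw [this, P_cyl]

/-- selecting coordinates injectively preserves the uniform measure -/
theorem map_P_inj (σ : ℤ → ℤ) (hσ : Function.Injective σ) :
    (P α).map (fun x i => x (σ i)) = P α := by
  classical
  have hm : Measurable (fun (x : ℤ → α) (i : ℤ) => x (σ i)) := by fun_prop
  have : IsProbabilityMeasure ((P α).map (fun x i => x (σ i))) :=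
    Measure.isProbabilityMeasure_map hm.aemeasurable
  refine measure_eq_of_windows _ _ _ exists_Icc_superset fun m w => ?_
  rw [Measure.map_apply hm (measurableSet_cyl _ _), P_cyl]
  set s := Finset.Icc (-(m : ℤ)) m
  let w' : ℤ → α := fun j => if h : ∃ i, σ i = j then w h.choose else w 0
  have hw' : ∀ i, w' (σ i) = w i := by
    intro i
    have h : ∃ i', σ i' = σ i := ⟨i, rfl⟩
    simp only [w', dif_pos h]
    rw [hσ h.choose_spec]
  have : (fun (x : ℤ → α) (i : ℤ) => x (σ i)) ⁻¹' cyl s w = cyl (s.image σ) w' := by
    ext x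
    simp only [mem_preimage, cyl, Finset.mem_image]
    constructor
    · rintro hx _ ⟨i, hi, rfl⟩
      rw [hw']; exact hx i hi
    · intro hx i hi
      rw [← hw']
      exact hx _ ⟨i, hi, rfl⟩
  rw [this, P_cyl, Finset.card_image_of_injective _ hσ]

/-- the shift -/
def sh {β : Type*} (x : ℤ → β) : ℤ → β := fun i => x (i + 1)

theorem measurable_sh {β : Type*} [MeasurableSpace β] : Measurable (sh : (ℤ → β) → ℤ → β) := by
  unfold sh; fun_prop

theorem P_sh : (P α).map sh = P α := map_P_inj (fun i => i + 1) (add_left_injective 1)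

end Maps

end Pool.Agent.TH288.NB
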