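import Pool.Agent.TH288.NB.Basic

/-!
# Block maps with a periodic frame
-/

set_option autoImplicit false

open MeasureTheory Set
open scoped ENNReal

namespace Pool.Agent.TH288.NB

/-- offset of `j` in its block, for blocks of length `M` starting at `θ + M ℤ` -/
def off (M θ j : ℤ) : ℤ := (j - θ) % M

/-- start of the block containing `j` -/
def base (M θ j : ℤ) : ℤ := j - off M θ j

theorem off_nonneg {M : ℤ} (hM : 0 < M) (θ j : ℤ) : 0 ≤ off M θ j := Int.emod_nonneg _ hM.ne'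

theorem off_lt {M : ℤ} (hM : 0 < M) (θ j : ℤ) : off M θ j < M := Int.emod_lt_of_pos _ hM

theorem base_add_off (M θ j : ℤ) : base M θ j + off M θ j = j := by unfold base; ring

theorem dvd_base_sub (M θ j : ℤ) : M ∣ base M θ j - θ := by
  unfold base off
  have : j - (j - θ) % M - θ = M * ((j - θ) / M) := by
    have := Int.emod_add_mul_ediv (j - θ) M
    linarith
  rw [this]
  exact dvd_mul_right _ _

theorem off_of_dvd {M θ a d : ℤ} (ha : M ∣ a - θ) (h0 : 0 ≤ d) (h1 : d < M) :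
    off M θ (a + d) = d := by
  obtain ⟨c, hc⟩ := ha
  unfold off
  have : a + d - θ = d + M * c := by linarith
  rw [this, Int.add_mul_emod_self_left, Int.emod_eq_of_lt h0 h1]

theorem base_of_dvd {M θ a d : ℤ} (ha : M ∣ a - θ) (h0 : 0 ≤ d) (h1 : d < M) :
    base M θ (a + d) = a := by
  unfold base
  rw [off_of_dvd ha h0 h1]; ring

theorem off_sub_one (M θ j : ℤ) : off M (θ - 1) j = off M θ (j + 1) := by
  unfold off; congr 1; ring

theorem base_sub_one (M θ j : ℤ) : base M (θ - 1) j = base M θ (j + 1) - 1 := by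
  unfold base; rw [off_sub_one]; ring

theorem off_add_period (M θ j : ℤ) : off M (θ + M) j = off M θ j := by
  unfold off
  have : j - (θ + M) = (j - θ) + M * (-1) := by ring
  rw [this, Int.add_mul_emod_self_left]

variable {β γ δ : Type*}

/-- block map -/
def Blk (M θ : ℤ) (f : (ℤ → β) → ℤ → γ) (x : ℤ → β) : ℤ → γ :=
  fun j => f (fun d => x (base M θ j + d)) (off M θ j)

/-- `f` uses only the content of the block -/
def Loc (M : ℤ) (f : (ℤ → β) → ℤ → γ) : Prop :=
  ∀ y y' : ℤ → β, (∀ d, 0 ≤ d → d < M → y d = y' d) → ∀ d, 0 ≤ d → d < M → f y d = f y' d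

theorem Blk_comp {M : ℤ} (hM : 0 < M) (θ : ℤ) (f : (ℤ → γ) → ℤ → δ) (g : (ℤ → β) → ℤ → γ)
    (hf : Loc M f) (x : ℤ → β) :
    Blk M θ f (Blk M θ g x) = Blk M θ (fun y d => f (g y) d) x := by
  funext j
  unfold Blk
  refine hf _ _ (fun d h0 h1 => ?_) _ (off_nonneg hM _ _) (off_lt hM _ _)
  rw [off_of_dvd (dvd_base_sub _ _ _) h0 h1, base_of_dvd (dvd_base_sub _ _ _) h0 h1]

theorem Blk_congr {M : ℤ} (hM : 0 < M) (θ : ℤ) (f g : (ℤ → β) → ℤ → γ)
    (h : ∀ y d, 0 ≤ d → d < M → f y d = g y d) (x : ℤ → β) : Blk M θ f x = Blk M θ g x := by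
  funext j
  exact h _ _ (off_nonneg hM _ _) (off_lt hM _ _)

theorem Blk_id (M θ : ℤ) (x : ℤ → β) : Blk M θ (fun y d => y d) x = x := by
  funext j
  show x (base M θ j + off M θ j) = x j
  rw [base_add_off]

theorem Blk_sh (M θ : ℤ) (f : (ℤ → β) → ℤ → γ) (x : ℤ → β) :
    sh (Blk M θ f x) = Blk M (θ - 1) f (sh x) := by
  funext j
  unfold sh Blk
  rw [off_sub_one, base_sub_one]
  congr 1
  funext d
  congr 1
  ring

theorem Blk_period (M θ : ℤ) (f : (ℤ → β) → ℤ → γ) (x : ℤ → β) :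
    Blk M (θ + M) f x = Blk M θ f x := by
  funext j
  unfold Blk base
  rw [off_add_period]

/-- translate by `n` -/
def shn {β : Type*} (n : ℤ) (x : ℤ → β) : ℤ → β := fun i => x (i + n)

theorem measurable_shn {β : Type*} [MeasurableSpace β] (n : ℤ) :
    Measurable (shn n : (ℤ → β) → ℤ → β) := by
  unfold shn; fun_prop

theorem off_sub (M θ n j : ℤ) : off M (θ - n) j = off M θ (j + n) := by
  unfold off; congr 1; ring

theorem base_sub (M θ n j : ℤ) : base M (θ - n) j = base M θ (j + n) - n := by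
  unfold base; rw [off_sub]; ring

theorem Blk_shn (M θ n : ℤ) (f : (ℤ → β) → ℤ → γ) (x : ℤ → β) :
    shn n (Blk M θ f x) = Blk M (θ - n) f (shn n x) := by
  funext j
  unfold shn Blk
  rw [off_sub, base_sub]
  congr 1
  funext d
  congr 1
  ring

/-- windows made of full blocks -/
noncomputable def win (M θ : ℤ) (m : ℕ) : Finset ℤ := Finset.Ico (θ - m * M) (θ + m * M)

theorem exists_win {M : ℤ} (hM : 0 < M) (θ : ℤ) (s : Finset ℤ) : ∃ m, s ⊆ win M θ m := by
  obtain ⟨m, hm⟩ := exists_Icc_superset s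
  refine ⟨m + θ.natAbs + 1, fun i hi => ?_⟩
  have h1 := Finset.mem_Icc.1 (hm hi)
  unfold win
  rw [Finset.mem_Ico]
  have h2 : ((m + θ.natAbs + 1 : ℕ) : ℤ) ≤ ((m + θ.natAbs + 1 : ℕ) : ℤ) * M :=
    le_mul_of_one_le_right (by positivity) (by omega)
  push_cast at h2 ⊢
  have h3 : |θ| = θ ∨ |θ| = -θ := abs_choice θ
  have h4 := abs_nonneg θ
  rcases h3 with h3 | h3 <;> rw [h3] at h2 h4 ⊢ <;> constructor <;> linarith [h1.1, h1.2]

theorem win_local {M : ℤ} (hM : 0 < M) (θ : ℤ) (f : (ℤ → β) → ℤ → γ) (hf : Loc M f) (m : ℕ)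
    (x y : ℤ → β) (h : ∀ i ∈ win M θ m, x i = y i) : ∀ i ∈ win M θ m, Blk M θ f x i = Blk M θ f y i := by
  intro i hi
  unfold Blk
  refine hf _ _ (fun d h0 h1 => h _ ?_) _ (off_nonneg hM _ _) (off_lt hM _ _)
  unfold win at hi ⊢
  rw [Finset.mem_Ico] at hi ⊢
  obtain ⟨c, hc⟩ := dvd_base_sub M θ i
  have h2 := off_nonneg hM θ i
  have h3 := off_lt hM θ i
  have h4 := base_add_off M θ i
  have h5 : -(m : ℤ) - 1 < c := by
    by_contra hcon
    have : M * c ≤ M * (-(m : ℤ) - 1) := mul_le_mul_of_nonneg_left (by omega) hM.le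
    nlinarith
  have h6 : c < m := by
    by_contra hcon
    have : M * (m : ℤ) ≤ M * c := mul_le_mul_of_nonneg_left (by omega) hM.le
    nlinarith
  have h7 : M * (-(m : ℤ)) ≤ M * c := mul_le_mul_of_nonneg_left (by omega) hM.le
  have h8 : M * c ≤ M * ((m : ℤ) - 1) := mul_le_mul_of_nonneg_left (by omega) hM.le
  constructor <;> nlinarith

theorem measurable_Blk [MeasurableSpace β] [MeasurableSpace γ] (M θ : ℤ) (f : (ℤ → β) → ℤ → γ)
    (hf : ∀ d, Measurable (fun y => f y d)) : Measurable (Blk M θ f) := by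
  refine measurable_pi_iff.2 fun j => ?_
  have : Measurable (fun (x : ℤ → β) (d : ℤ) => x (base M θ j + d)) := by fun_prop
  exact (hf _).comp this

end Pool.Agent.TH288.NB
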