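import Pool.Agent.TH288.NB.Blk

/-!
# The frames attached to a finite sequence `u`
-/

set_option autoImplicit false

open MeasureTheory Set
open scoped ENNReal

namespace Pool.Agent.TH288.NB

/-- bits -/
abbrev Bt : Type := Fin 2

/-- source alphabet: marker, bit, extra bit -/
abbrev A : Type := Fin 4 × Bt × Bt

theorem bt_add_self (a : Bt) : a + a = 0 := by revert a; decide

theorem bt_sum_self {ι : Type*} (s : Finset ι) (f : ι → Bt) : ∑ i ∈ s, f i + ∑ i ∈ s, f i = 0 :=
  bt_add_self _

/-- region length -/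
def NN (u : List ℕ) : ℕ := 2 ^ (Encodable.encode u + 10)

/-- period -/
def MM (u : List ℕ) : ℕ := (2 * u.length + 1) * NN u

theorem NN_pos (u : List ℕ) : 0 < NN u := by unfold NN; positivity

theorem MM_pos (u : List ℕ) : 0 < MM u := by unfold MM; exact Nat.mul_pos (by omega) (NN_pos u)

theorem MM_inj {u v : List ℕ} (h : MM u = MM v) : u = v := by
  have key : ∀ (a b k l : ℕ), (2 * a + 1) * 2 ^ k = (2 * b + 1) * 2 ^ l → k ≤ l := by
    intro a b k l h
    by_contra hlt
    push Not at hlt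
    obtain ⟨m, rfl⟩ := Nat.exists_eq_add_of_lt hlt
    have h1 : (2 * a + 1) * 2 ^ (l + m + 1) = ((2 * a + 1) * 2 ^ (m + 1)) * 2 ^ l := by
      rw [mul_assoc, ← pow_add]; congr 2; omega
    rw [h1] at h
    have h2 := Nat.eq_of_mul_eq_mul_right (by positivity) h
    have h3 : 2 ∣ (2 * a + 1) * 2 ^ (m + 1) := Dvd.dvd.mul_left (dvd_pow_self 2 (by omega)) _
    omega
  unfold MM NN at h
  have h1 := key _ _ _ _ h
  have h2 := key _ _ _ _ h.symm
  exact Encodable.encode_injective (by omega)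

/-- marker at offset `d` of the frame -/
def mk (u : List ℕ) (d : ℤ) : Fin 4 :=
  if d = 0 then 3
  else if d < NN u then 2
  else if ((u.getD (((d / NN u).toNat - 1) / 2) 0 : ℤ) + 1) ∣ d % NN u then 2
  else if (((((d / NN u).toNat - 1) / 2 : ℕ) : ℤ) + 1) ∣ d % NN u then 1
  else 0

/-- block encoder with pivot region `q` -/
def gq (u : List ℕ) (q : ℕ) (y : ℤ → Bt) (d : ℤ) : A :=
  (mk u d,
   if d / NN u = q + 1 then ∑ k ∈ (Finset.range (2 * u.length)).erase q,
      y (((k : ℤ) + 1) * NN u + d % NN u) else y d,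
   if d < NN u then y (((q : ℤ) + 1) * NN u + d) else 0)

/-- block decoder with pivot region `q` -/
def fq (u : List ℕ) (q : ℕ) (x : ℤ → A) (d : ℤ) : Bt :=
  if d / NN u = q + 1 then (x (d % NN u)).2.2 else (x d).2.1

theorem region_bounds (u : List ℕ) {k : ℕ} (hk : k < 2 * u.length) {e : ℤ} (h0 : 0 ≤ e)
    (h1 : e < NN u) : 0 ≤ ((k : ℤ) + 1) * NN u + e ∧ ((k : ℤ) + 1) * NN u + e < MM u := by
  have hN : (0 : ℤ) < NN u := by exact_mod_cast NN_pos u
  constructor
  · positivity
  · unfold MM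
    push_cast
    have : ((k : ℤ) + 1) + 1 ≤ 2 * u.length + 1 := by omega
    nlinarith

theorem region_div (u : List ℕ) (k : ℕ) {e : ℤ} (h0 : 0 ≤ e) (h1 : e < NN u) :
    (((k : ℤ) + 1) * NN u + e) / NN u = k + 1 ∧ (((k : ℤ) + 1) * NN u + e) % NN u = e := by
  have hN : (0 : ℤ) < NN u := by exact_mod_cast NN_pos u
  constructor
  · rw [add_comm, Int.add_mul_ediv_right _ _ hN.ne', Int.ediv_eq_zero_of_lt h0 h1]; ring
  · rw [add_comm, Int.add_mul_emod_self_right, Int.emod_eq_of_lt h0 h1]

theorem region_decomp (u : List ℕ) {q : ℕ} {d : ℤ} (h : d / NN u = q + 1) :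
    d = ((q : ℤ) + 1) * NN u + d % NN u := by
  have := Int.emod_add_mul_ediv d (NN u)
  rw [h] at this
  linarith

theorem Loc_gq (u : List ℕ) (q : ℕ) (hq : q < 2 * u.length) : Loc (MM u) (gq u q) := by
  intro y y' h d h0 h1
  have hN : (0 : ℤ) < NN u := by exact_mod_cast NN_pos u
  unfold gq
  have e0 := Int.emod_nonneg d hN.ne'
  have e1 := Int.emod_lt_of_pos d hN
  refine Prod.ext rfl (Prod.ext ?_ ?_)
  · simp only
    split_ifs with hd
    · refine Finset.sum_congr rfl fun k hk => ?_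
      have hk' : k < 2 * u.length := Finset.mem_range.1 (Finset.mem_of_mem_erase hk)
      have := region_bounds u hk' e0 e1
      exact h _ this.1 this.2
    · exact h d h0 h1
  · simp only
    split_ifs with hd
    · have := region_bounds u hq h0 hd
      exact h _ this.1 this.2
    · rfl

theorem Loc_fq (u : List ℕ) (q : ℕ) : Loc (MM u) (fq u q) := by
  intro y y' h d h0 h1
  have hN : (0 : ℤ) < NN u := by exact_mod_cast NN_pos u
  have hNM : (NN u : ℤ) ≤ MM u := by
    unfold MM; push_cast; nlinarith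
  unfold fq
  have e0 := Int.emod_nonneg d hN.ne'
  have e1 := Int.emod_lt_of_pos d hN
  split_ifs with hd
  · rw [h _ e0 (by omega)]
  · rw [h d h0 h1]

/-- decoding inverts encoding -/
theorem fq_gq (u : List ℕ) (q : ℕ) (y : ℤ → Bt) (d : ℤ) : fq u q (gq u q y) d = y d := by
  have hN : (0 : ℤ) < NN u := by exact_mod_cast NN_pos u
  unfold fq
  have e0 := Int.emod_nonneg d hN.ne'
  have e1 := Int.emod_lt_of_pos d hN
  split_ifs with hd
  · simp only [gq]
    rw [if_pos e1, ← region_decomp u hd]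
  · simp only [gq]
    rw [if_neg hd]

/-- re-encoding a decoded block, with another pivot, gives the block back -/
theorem gq_fq_gq (u : List ℕ) (q q' : ℕ) (hq : q < 2 * u.length) (hq' : q' < 2 * u.length)
    (y : ℤ → Bt) (d : ℤ) (hd0 : 0 ≤ d) : gq u q' (fq u q' (gq u q y)) d = gq u q y d := by
  rcases eq_or_ne q q' with rfl | hne
  · have : fq u q (gq u q y) = y := funext fun d => fq_gq u q y d
    rw [this]
  have hN : (0 : ℤ) < NN u := by exact_mod_cast NN_pos u
  have e0 := Int.emod_nonneg d hN.ne'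
  have e1 := Int.emod_lt_of_pos d hN
  -- value of the decoded block in region `k`
  have hreg : ∀ (k : ℕ) (e : ℤ), 0 ≤ e → e < NN u →
      fq u q' (gq u q y) (((k : ℤ) + 1) * NN u + e) =
        if k = q' then y (((q : ℤ) + 1) * NN u + e)
        else if k = q then ∑ l ∈ (Finset.range (2 * u.length)).erase q,
          y (((l : ℤ) + 1) * NN u + e) else y (((k : ℤ) + 1) * NN u + e) := by
    intro k e h0 h1
    obtain ⟨hd, hm⟩ := region_div u k h0 h1
    unfold fq
    rw [hd, hm]
    by_cases hk : k = q'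
    · rw [if_pos (by rw [hk]), if_pos hk]
      simp only [gq]
      rw [if_pos h1]
    · rw [if_neg (by intro hh; apply hk; omega), if_neg hk]
      simp only [gq]
      rw [hd, hm]
      by_cases hk2 : k = q
      · rw [if_pos (by rw [hk2]), if_pos hk2]
      · rw [if_neg (by intro hh; apply hk2; omega), if_neg hk2]
  refine Prod.ext rfl (Prod.ext ?_ ?_)
  · show (if d / NN u = q' + 1 then ∑ k ∈ (Finset.range (2 * u.length)).erase q',
      fq u q' (gq u q y) (((k : ℤ) + 1) * NN u + d % NN u) else fq u q' (gq u q y) d) =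
      (if d / NN u = q + 1 then ∑ k ∈ (Finset.range (2 * u.length)).erase q,
      y (((k : ℤ) + 1) * NN u + d % NN u) else y d)
    by_cases hd : d / NN u = q' + 1
    · rw [if_pos hd, if_neg (by rw [hd]; intro hh; apply hne; omega)]
      have hqm : q ∈ (Finset.range (2 * u.length)).erase q' :=
        Finset.mem_erase.2 ⟨hne, Finset.mem_range.2 hq⟩
      have hqm' : q' ∈ (Finset.range (2 * u.length)).erase q :=
        Finset.mem_erase.2 ⟨hne.symm, Finset.mem_range.2 hq'⟩
      rw [← Finset.add_sum_erase _ _ hqm, hreg q _ e0 e1, if_neg hne, if_pos rfl,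
        ← Finset.add_sum_erase _ _ hqm', ← region_decomp u hd]
      have h2 : ((Finset.range (2 * u.length)).erase q').erase q =
          ((Finset.range (2 * u.length)).erase q).erase q' := Finset.erase_right_comm
      rw [h2]
      have h3 : ∑ k ∈ ((Finset.range (2 * u.length)).erase q).erase q',
          fq u q' (gq u q y) (((k : ℤ) + 1) * NN u + d % NN u) =
          ∑ k ∈ ((Finset.range (2 * u.length)).erase q).erase q',
            y (((k : ℤ) + 1) * NN u + d % NN u) := by
        refine Finset.sum_congr rfl fun k hk => ?_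
        rw [Finset.mem_erase, Finset.mem_erase] at hk
        rw [hreg k _ e0 e1, if_neg hk.1, if_neg hk.2.1]
      rw [h3, add_assoc, bt_sum_self, add_zero]
    · rw [if_neg hd]
      unfold fq
      rw [if_neg hd]
      rfl
  · show (if d < NN u then fq u q' (gq u q y) (((q' : ℤ) + 1) * NN u + d) else 0) =
      (if d < NN u then y (((q : ℤ) + 1) * NN u + d) else 0)
    split_ifs with hd
    · rw [hreg q' d hd0 hd, if_pos rfl]
    · rfl

theorem measurable_gq (u : List ℕ) (q : ℕ) (d : ℤ) : Measurable (fun y => gq u q y d) := by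
  unfold gq
  refine Measurable.prodMk measurable_const (Measurable.prodMk ?_ ?_)
  · split_ifs
    · exact Finset.measurable_sum _ fun k _ => measurable_pi_apply _
    · exact measurable_pi_apply _
  · split_ifs
    · exact measurable_pi_apply _
    · exact measurable_const

theorem measurable_fq (u : List ℕ) (q : ℕ) (d : ℤ) : Measurable (fun x => fq u q x d) := by
  unfold fq
  split_ifs
  · exact (measurable_pi_apply _).snd.snd
  · exact (measurable_pi_apply _).snd.fst

/-- encoder on sequences -/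
def Gq (u : List ℕ) (q : ℕ) (θ : ℤ) : (ℤ → Bt) → (ℤ → A) := Blk (MM u) θ (gq u q)

/-- decoder on sequences -/
def Fq (u : List ℕ) (q : ℕ) (θ : ℤ) : (ℤ → A) → (ℤ → Bt) := Blk (MM u) θ (fq u q)

theorem measurable_Gq (u : List ℕ) (q : ℕ) (θ : ℤ) : Measurable (Gq u q θ) :=
  measurable_Blk _ _ _ (measurable_gq u q)

theorem MMz_pos (u : List ℕ) : (0 : ℤ) < MM u := by exact_mod_cast MM_pos u

theorem Fq_Gq (u : List ℕ) (q : ℕ) (θ : ℤ) (z : ℤ → Bt) : Fq u q θ (Gq u q θ z) = z := by
  unfold Fq Gq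
  rw [Blk_comp (MMz_pos u) θ _ _ (Loc_fq u q)]
  rw [Blk_congr (MMz_pos u) θ _ (fun y d => y d) (fun y d _ _ => fq_gq u q y d), Blk_id]

theorem Gq_Fq_Gq (u : List ℕ) (q q' : ℕ) (hq : q < 2 * u.length) (hq' : q' < 2 * u.length)
    (θ : ℤ) (z : ℤ → Bt) : Gq u q' θ (Fq u q' θ (Gq u q θ z)) = Gq u q θ z := by
  have hl : Loc (MM u) (fun x : ℤ → A => gq u q' (fq u q' x)) := by
    intro y y' h d h0 h1
    exact Loc_gq u q' hq' _ _ (fun e e0 e1 => Loc_fq u q' _ _ h e e0 e1) d h0 h1
  have h1 : Gq u q' θ (Fq u q' θ (Gq u q θ z)) =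
      Blk (MM u) θ (fun x : ℤ → A => gq u q' (fq u q' x)) (Gq u q θ z) := by
    unfold Gq Fq
    rw [Blk_comp (MMz_pos u) θ _ _ (Loc_gq u q' hq')]
  rw [h1]
  unfold Gq
  rw [Blk_comp (MMz_pos u) θ _ _ hl]
  exact Blk_congr (MMz_pos u) θ _ _ (fun y d h0 _ => gq_fq_gq u q q' hq hq' y d h0) z

/-- the law of the encoded sequence does not depend on the pivot -/
theorem map_Gq_eq (u : List ℕ) (q q' : ℕ) (hq : q < 2 * u.length) (hq' : q' < 2 * u.length)
    (θ : ℤ) : (P Bt).map (Gq u q θ) = (P Bt).map (Gq u q' θ) := by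
  have hR : ∀ a b : ℕ, Measurable (fun z => Fq u b θ (Gq u a θ z)) := fun a b =>
    (measurable_Blk _ _ _ (measurable_fq u b)).comp (measurable_Gq u a θ)
  have hinv : ∀ a b : ℕ, a < 2 * u.length → b < 2 * u.length → ∀ z,
      Fq u a θ (Gq u b θ (Fq u b θ (Gq u a θ z))) = z := by
    intro a b ha hb z
    rw [Gq_Fq_Gq u a b ha hb, Fq_Gq]
  have hloc : ∀ a b : ℕ, a < 2 * u.length → ∀ m (x y : ℤ → Bt), (∀ i ∈ win (MM u) θ m, x i = y i) →
      ∀ i ∈ win (MM u) θ m, Fq u b θ (Gq u a θ x) i = Fq u b θ (Gq u a θ y) i := by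
    intro a b ha m x y h
    exact win_local (MMz_pos u) θ _ (Loc_fq u b) m _ _
      (win_local (MMz_pos u) θ _ (Loc_gq u a ha) m _ _ h)
  have key := map_P_of_local (α := Bt) (fun z => Fq u q' θ (Gq u q θ z))
    (fun z => Fq u q θ (Gq u q' θ z)) (hR q q') (win (MM u) θ) (exists_win (MMz_pos u) θ)
    (hinv q' q hq' hq) (hinv q q' hq hq') (hloc q q' hq) (hloc q' q hq')
  have h1 : Gq u q θ = Gq u q' θ ∘ (fun z => Fq u q' θ (Gq u q θ z)) := by
    funext z
    exact (Gq_Fq_Gq u q q' hq hq' θ z).symm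
  rw [h1, ← Measure.map_map (measurable_Gq u q' θ) (hR q q'), key]

end Pool.Agent.TH288.NB
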