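import Pool.Agent.TH288.NB.Frame
import Pool.Agent.H534R3.NonBorel

/-!
# The measure attached to a code of a tree
-/

set_option autoImplicit false

open MeasureTheory Set Filter
open scoped ENNReal Topology

namespace Pool.Agent.TH288.NB

open Pool.Agent.H534R3.NonBorel (br)

/-- pure sequences of type `i` -/
def pureT (i : ℕ) (θ : ℤ) (z : ℤ → Bt) : ℤ → A :=
  fun j => (if ((i : ℤ) + 1) ∣ (j - θ) then 1 else 0, z j, 0)

theorem measurable_pureT (i : ℕ) (θ : ℤ) : Measurable (pureT i θ) := by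
  refine measurable_pi_iff.2 fun j => ?_
  exact Measurable.prodMk measurable_const
    (Measurable.prodMk (measurable_pi_apply _) measurable_const)

theorem pureT_sh (i : ℕ) (θ : ℤ) (z : ℤ → Bt) : sh (pureT i θ z) = pureT i (θ - 1) (sh z) := by
  funext j
  unfold sh pureT
  have : j + 1 - θ = j - (θ - 1) := by ring
  simp only [this]

theorem pureT_period (i : ℕ) (θ : ℤ) (z : ℤ → Bt) :
    pureT i (θ + ((i + 1 : ℕ) : ℤ)) z = pureT i θ z := by
  funext j
  unfold pureT
  have : ((i : ℤ) + 1) ∣ (j - (θ + ((i + 1 : ℕ) : ℤ))) ↔ ((i : ℤ) + 1) ∣ (j - θ) := by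
    have h : j - (θ + ((i + 1 : ℕ) : ℤ)) = (j - θ) + ((i : ℤ) + 1) * (-1) := by push_cast; ring
    rw [h]
    exact dvd_add_left (dvd_mul_right _ _)
  simp only [this]

/-- average over the phases -/
noncomputable def avg (M : ℕ) (G : ℤ → (ℤ → Bt) → (ℤ → A)) : Measure (ℤ → A) :=
  ∑ θ ∈ Finset.range M, ((M : ℝ≥0∞))⁻¹ • (P Bt).map (G θ)

theorem avg_prob {M : ℕ} (hM : 0 < M) (G : ℤ → (ℤ → Bt) → (ℤ → A)) (hG : ∀ θ, Measurable (G θ)) :
    IsProbabilityMeasure (avg M G) := by
  constructor
  unfold avg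
  rw [Measure.finsetSum_apply]
  have : ∀ θ ∈ Finset.range M, (((M : ℝ≥0∞))⁻¹ • (P Bt).map (G θ)) univ = ((M : ℝ≥0∞))⁻¹ := by
    intro θ _
    have : IsProbabilityMeasure ((P Bt).map (G θ)) :=
      Measure.isProbabilityMeasure_map (hG θ).aemeasurable
    rw [Measure.smul_apply, measure_univ, smul_eq_mul, mul_one]
  rw [Finset.sum_congr rfl this, Finset.sum_const, Finset.card_range, nsmul_eq_mul]
  exact ENNReal.mul_inv_cancel (by simp; omega) (by simp)

theorem avg_sh {M : ℕ} (hM : 0 < M) (G : ℤ → (ℤ → Bt) → (ℤ → A)) (hG : ∀ θ, Measurable (G θ))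
    (h1 : ∀ θ z, sh (G θ z) = G (θ - 1) (sh z)) (h2 : ∀ θ z, G (θ + M) z = G θ z) :
    (avg M G).map sh = avg M G := by
  obtain ⟨M, rfl⟩ := Nat.exists_eq_succ_of_ne_zero hM.ne'
  unfold avg
  have h3 : ∀ θ : ℤ, ((P Bt).map (G θ)).map sh = (P Bt).map (G (θ - 1)) := by
    intro θ
    rw [Measure.map_map measurable_sh (hG θ)]
    have : sh ∘ G θ = G (θ - 1) ∘ sh := funext fun z => h1 θ z
    rw [this, ← Measure.map_map (hG _) measurable_sh, P_sh]
  rw [← Measure.mapₗ_apply_of_measurable measurable_sh, map_sum]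
  simp only [Measure.mapₗ_apply_of_measurable (measurable_sh (β := A)), Measure.map_smul, h3]
  rw [Finset.sum_range_succ', Finset.sum_range_succ]
  congr 1
  · refine Finset.sum_congr rfl fun θ _ => ?_
    congr 3
    push_cast; ring
  · have h4 : G (((0 : ℕ) : ℤ) - 1) = G (M : ℤ) := by
      funext z
      rw [← h2]
      congr 1
      push_cast; ring
    rw [h4]

/-- `u` dominates a node of the tree coded by `t` -/
def Good (t : List ℕ → Bool) (u : List ℕ) : Prop :=
  ∃ s ∈ List.sections (u.map (fun a => List.range (a + 1))), ∀ k ∈ Finset.range (u.length + 1),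
    t (s.take k) = true

/-- obstructions -/
def Obs (t : List ℕ → Bool) (u : List ℕ) : Prop := u ≠ [] ∧ ¬ Good t u

theorem isClopen_Good (u : List ℕ) : IsClopen {t : List ℕ → Bool | Good t u} := by
  have : {t : List ℕ → Bool | Good t u} =
      ⋃ s ∈ (List.sections (u.map (fun a => List.range (a + 1)))).toFinset,
        ⋂ k ∈ Finset.range (u.length + 1), {t : List ℕ → Bool | t (s.take k) = true} := by
    ext t
    simp [Good]
  rw [this]
  refine Set.Finite.isClopen_biUnion (Finset.finite_toSet _) fun s _ => ?_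
  refine Set.Finite.isClopen_biInter (Finset.finite_toSet _) fun k _ => ?_
  exact (isClopen_discrete ({true} : Set Bool)).preimage (continuous_apply (s.take k))

theorem isClopen_Obs (u : List ℕ) : IsClopen {t : List ℕ → Bool | Obs t u} := by
  by_cases hu : u = []
  · have : {t : List ℕ → Bool | Obs t u} = ∅ := by
      ext t; simp [Obs, hu]
    rw [this]; exact isClopen_empty
  · have : {t : List ℕ → Bool | Obs t u} = {t : List ℕ → Bool | Good t u}ᶜ := by
      ext t; simp [Obs, hu]
    rw [this]; exact (isClopen_Good u).compl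

open Classical in
/-- component attached to `u` -/
noncomputable def nuT (t : List ℕ → Bool) (u : List ℕ) : Measure (ℤ → A) :=
  if Obs t u then avg (MM u) (Gq u 0) else avg 1 (pureT 0)

theorem Gq_sh (u : List ℕ) (q : ℕ) (θ : ℤ) (z : ℤ → Bt) : sh (Gq u q θ z) = Gq u q (θ - 1) (sh z) :=
  Blk_sh _ _ _ _

theorem Gq_period (u : List ℕ) (q : ℕ) (θ : ℤ) (z : ℤ → Bt) : Gq u q (θ + MM u) z = Gq u q θ z :=
  Blk_period _ _ _ _

instance pure_prob (i : ℕ) : IsProbabilityMeasure (avg (i + 1) (pureT i)) :=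
  avg_prob (Nat.succ_pos i) _ (measurable_pureT i)

instance nuT_prob (t : List ℕ → Bool) (u : List ℕ) : IsProbabilityMeasure (nuT t u) := by
  unfold nuT
  split_ifs
  · exact avg_prob (MM_pos u) _ (measurable_Gq u 0)
  · exact avg_prob Nat.one_pos _ (measurable_pureT 0)

theorem pure_inv (i : ℕ) : (avg (i + 1) (pureT i)).map sh = avg (i + 1) (pureT i) :=
  avg_sh (Nat.succ_pos i) _ (measurable_pureT i) (pureT_sh i) (pureT_period i)

theorem nuT_inv (t : List ℕ → Bool) (u : List ℕ) : (nuT t u).map sh = nuT t u := by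
  unfold nuT
  split_ifs
  · exact avg_sh (MM_pos u) _ (measurable_Gq u 0) (Gq_sh u 0) (Gq_period u 0)
  · exact pure_inv 0

/-- the measure attached to `t` -/
noncomputable def mu (t : List ℕ → Bool) : Measure (ℤ → A) :=
  Measure.sum fun e : ℕ => ((2 : ℝ≥0∞)⁻¹) ^ (e + 2) •
    (avg (e + 1) (pureT e) + nuT t (Denumerable.ofNat (List ℕ) e))

instance mu_prob (t : List ℕ → Bool) : IsProbabilityMeasure (mu t) := by
  constructor
  unfold mu
  rw [Measure.sum_apply _ MeasurableSet.univ]
  have : ∀ e : ℕ, (((2 : ℝ≥0∞)⁻¹) ^ (e + 2) •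
      (avg (e + 1) (pureT e) + nuT t (Denumerable.ofNat (List ℕ) e))) univ =
      ((2 : ℝ≥0∞)⁻¹) ^ (e + 1) := by
    intro e
    rw [Measure.smul_apply, Measure.add_apply, measure_univ, measure_univ, smul_eq_mul,
      pow_succ _ (e + 1), mul_assoc]
    have : (2 : ℝ≥0∞)⁻¹ * (1 + 1) = 1 := by
      rw [one_add_one_eq_two]; exact ENNReal.inv_mul_cancel (by simp) (by simp)
    rw [this, mul_one]
  simp only [this]
  rw [ENNReal.tsum_geometric_add_one, ENNReal.one_sub_inv_two, inv_inv]
  exact ENNReal.inv_mul_cancel (by simp) (by simp)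

theorem mu_inv (t : List ℕ → Bool) : (mu t).map sh = mu t := by
  unfold mu
  rw [Measure.map_sum measurable_sh.aemeasurable]
  congr 1
  funext e
  rw [Measure.map_smul, Measure.map_add _ _ measurable_sh, pure_inv, nuT_inv]

/-- the measure as a point of the space of probability measures -/
noncomputable def muP (t : List ℕ → Bool) : ProbabilityMeasure (ℤ → A) := ⟨mu t, mu_prob t⟩

theorem continuous_muP : Continuous muP := by
  rw [ProbabilityMeasure.continuous_iff_forall_continuous_integral]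
  intro f
  have hint : ∀ (ν : Measure (ℤ → A)) [IsFiniteMeasure ν], Integrable f ν := fun ν _ =>
    f.integrable ν
  have h1 : ∀ t, ∫ x, f x ∂(muP t : Measure (ℤ → A)) = ∑' e : ℕ, ((2 : ℝ)⁻¹) ^ (e + 2) *
      (∫ x, f x ∂(avg (e + 1) (pureT e)) + ∫ x, f x ∂(nuT t (Denumerable.ofNat (List ℕ) e))) := by
    intro t
    show ∫ x, f x ∂(mu t) = _
    unfold mu
    rw [integral_sum_measure (hint (mu t))]
    congr 1
    funext e
    rw [integral_smul_measure, integral_add_measure (hint _) (hint _)]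
    simp
  have h2 : ∀ (ν : Measure (ℤ → A)) [IsProbabilityMeasure ν], |∫ x, f x ∂ν| ≤ ‖f‖ := by
    intro ν _
    have := f.norm_integral_le_norm ν
    simpa using this
  simp only [h1]
  refine continuous_tsum (u := fun e : ℕ => ((2 : ℝ)⁻¹) ^ (e + 2) * (2 * ‖f‖)) ?_ ?_ ?_
  · intro e
    refine continuous_const.mul (continuous_const.add ?_)
    set u := Denumerable.ofNat (List ℕ) e
    classical
    have : (fun t => ∫ x, f x ∂(nuT t u)) = fun t =>
        if Obs t u then ∫ x, f x ∂(avg (MM u) (Gq u 0)) else ∫ x, f x ∂(avg 1 (pureT 0)) := by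
      funext t
      unfold nuT
      split_ifs <;> rfl
    rw [this]
    refine Continuous.if (fun t ht => ?_) continuous_const continuous_const
    rw [(isClopen_Obs u).frontier_eq] at ht
    exact ht.elim
  · refine Summable.mul_right _ ?_
    exact (summable_nat_add_iff 2).2 (summable_geometric_of_lt_one (by norm_num) (by norm_num))
  · intro e t
    rw [norm_mul, Real.norm_of_nonneg (by positivity : (0:ℝ) ≤ ((2 : ℝ)⁻¹) ^ (e + 2))]
    refine mul_le_mul_of_nonneg_left ?_ (by positivity)
    refine (norm_add_le _ _).trans ?_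
    rw [Real.norm_eq_abs, Real.norm_eq_abs, two_mul]
    exact add_le_add (h2 _) (h2 _)

end Pool.Agent.TH288.NB
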