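import Pool.Agent.TH288.NB.Pos2

/-!
# Decisions of a finitary map at a given radius
-/

set_option autoImplicit false

open MeasureTheory Set Filter
open scoped ENNReal Topology

namespace Pool.Agent.TH288.NB

section Dec

variable {β : Type*} (X₀ : Set (ℤ → β)) (φ : (ℤ → β) → (ℤ → Bt))

/-- at radius `r` the value at the origin is forced to be `b` -/
def DecP (r : ℕ) (x : ℤ → β) (b : Bt) : Prop :=
  ∀ y ∈ X₀, (∀ j : ℤ, |j| ≤ (r : ℤ) → y j = x j) → φ y 0 = b

/-- undecided at radius `r` -/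
def Und (r : ℕ) (x : ℤ → β) : Prop := ¬ ∃ b, DecP X₀ φ r x b

open Classical in
/-- choice of a value satisfying a predicate -/
noncomputable def decOf (p : Bt → Prop) : Bt := if h : ∃ b, p b then h.choose else 0

/-- the decided value -/
noncomputable def dec (r : ℕ) (x : ℤ → β) : Bt := decOf (DecP X₀ φ r x)

theorem DecP_congr {r : ℕ} {x x' : ℤ → β} (h : ∀ j : ℤ, |j| ≤ (r : ℤ) → x j = x' j) :
    DecP X₀ φ r x = DecP X₀ φ r x' := by
  funext b
  unfold DecP
  refine propext ⟨fun H y hy hyx => H y hy fun j hj => ?_, fun H y hy hyx => H y hy fun j hj => ?_⟩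
  · rw [hyx j hj, h j hj]
  · rw [hyx j hj, h j hj]

theorem Und_congr {r : ℕ} {x x' : ℤ → β} (h : ∀ j : ℤ, |j| ≤ (r : ℤ) → x j = x' j) :
    Und X₀ φ r x ↔ Und X₀ φ r x' := by
  unfold Und
  rw [DecP_congr X₀ φ h]

theorem dec_congr {r : ℕ} {x x' : ℤ → β} (h : ∀ j : ℤ, |j| ≤ (r : ℤ) → x j = x' j) :
    dec X₀ φ r x = dec X₀ φ r x' := by
  unfold dec
  rw [DecP_congr X₀ φ h]

theorem dec_spec {r : ℕ} {x : ℤ → β} (hx : x ∈ X₀) (h : ¬ Und X₀ φ r x) :
    φ x 0 = dec X₀ φ r x := by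
  unfold Und at h
  push Not at h
  unfold dec decOf
  rw [dif_pos h]
  exact h.choose_spec x hx (fun _ _ => rfl)

theorem measurableSet_Und [Fintype β] [MeasurableSpace β] [MeasurableSingletonClass β] (r : ℕ) :
    MeasurableSet {x | Und X₀ φ r x} :=
  measurableSet_window r _ fun _ _ hxy hx => (Und_congr X₀ φ hxy).2 hx

end Dec

/-- for pure sequences, most windows are decided at a large radius -/
theorem exists_radius (X₀ : Set (ℤ → A)) (φ : (ℤ → A) → (ℤ → Bt))
    (hfin : ∀ x ∈ X₀, ∃ n : ℕ, ∀ y ∈ X₀, (∀ i : ℤ, |i| ≤ (n : ℤ) → y i = x i) → φ y 0 = φ x 0)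
    (i : ℕ) (hnull : ∀ θ : ℕ, θ < i + 1 → ∀ᵐ z ∂(P Bt), pureT i θ z ∈ X₀)
    (ε : ℝ≥0∞) (hε : 0 < ε) :
    ∃ r : ℕ, ∀ θ : ℤ, P Bt {z | Und X₀ φ r (pureT i θ z)} ≤ ε := by
  -- one phase
  have h1 : ∀ θ : ℕ, θ < i + 1 → ∃ r : ℕ, ∀ r' ≥ r, P Bt {z | Und X₀ φ r' (pureT i θ z)} ≤ ε := by
    intro θ hθ
    have hanti : Antitone fun r : ℕ => {z | Und X₀ φ r (pureT i θ z)} := by
      intro r r' hrr z hz
      rintro ⟨b, hb⟩
      exact hz ⟨b, fun y hy hyx => hb y hy fun j hj => hyx j (hj.trans (by exact_mod_cast hrr))⟩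
    have hmeas : ∀ r : ℕ, MeasurableSet {z | Und X₀ φ r (pureT i θ z)} := fun r =>
      (measurable_pureT i θ) (measurableSet_Und X₀ φ r)
    have hlim := tendsto_measure_iInter_atTop (μ := P Bt)
      (fun r => (hmeas r).nullMeasurableSet) hanti ⟨0, measure_ne_top _ _⟩
    have h0 : P Bt (⋂ r : ℕ, {z | Und X₀ φ r (pureT i θ z)}) = 0 := by
      refine measure_mono_null ?_ (hnull θ hθ)
      intro z hz hmem
      obtain ⟨n, hn⟩ := hfin _ hmem
      exact (mem_iInter.1 hz n) ⟨_, hn⟩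
    rw [h0] at hlim
    have := hlim.eventually (Iic_mem_nhds hε)
    rw [Filter.eventually_atTop] at this
    obtain ⟨r, hr⟩ := this
    exact ⟨r, fun r' hr' => hr r' hr'⟩
  choose! R hR using h1
  refine ⟨(Finset.range (i + 1)).sup R, fun θ => ?_⟩
  have hi1 : (0 : ℤ) < (i : ℤ) + 1 := by positivity
  have h2 := Int.emod_nonneg θ hi1.ne'
  have h3 := Int.emod_lt_of_pos θ hi1
  obtain ⟨θ', hθ'⟩ := Int.eq_ofNat_of_zero_le h2
  have h4 : θ' < i + 1 := by omega
  have h5 : ∀ z, pureT i θ z = pureT i (θ' : ℤ) z := by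
    intro z
    funext j
    unfold pureT
    have : ((i : ℤ) + 1) ∣ (j - θ) ↔ ((i : ℤ) + 1) ∣ (j - θ') := by
      have h : j - (θ' : ℤ) = (j - θ) + (θ - θ % ((i : ℤ) + 1)) := by
        rw [hθ']
        ring_nf
      rw [h]
      exact (dvd_add_left (dvd_sub_emod _ _)).symm
    simp only [this]
  simp only [h5]
  exact hR θ' h4 _ (Finset.le_sup (Finset.mem_range.2 h4))

/-- shift invariance for all translates -/
theorem map_shn {μ : Measure (ℤ → A)} (h : μ.map sh = μ) (n : ℤ) : μ.map (shn n) = μ := by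
  have hnat : ∀ n : ℕ, μ.map (shn (n : ℤ)) = μ := by
    intro n
    induction n with
    | zero =>
      have : (shn ((0 : ℕ) : ℤ) : (ℤ → A) → ℤ → A) = id := by funext x i; simp [shn]
      rw [this, Measure.map_id]
    | succ n ih =>
      have : (shn ((n + 1 : ℕ) : ℤ) : (ℤ → A) → ℤ → A) = sh ∘ shn (n : ℤ) := by
        funext x i
        simp only [shn, sh, Function.comp]
        congr 1; push_cast; ring
      rw [this, ← Measure.map_map measurable_sh (measurable_shn _), ih, h]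
  rcases Int.le_total 0 n with hn | hn
  · obtain ⟨m, rfl⟩ := Int.eq_ofNat_of_zero_le hn
    exact hnat m
  · obtain ⟨m, hm⟩ := Int.eq_ofNat_of_zero_le (neg_nonneg.2 hn)
    have h1 : (shn n : (ℤ → A) → ℤ → A) ∘ shn (m : ℤ) = id := by
      funext x i
      simp only [shn, Function.comp, id]
      congr 1
      omega
    conv_lhs => rw [← hnat m]
    rw [Measure.map_map (measurable_shn _) (measurable_shn _), h1, Measure.map_id]

/-- normal form of the hypothesis `Fac` -/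
theorem fac_normal {μ : Measure (ℤ → A)} [IsProbabilityMeasure μ] (h : Fac μ) :
    ∃ (φ : (ℤ → A) → (ℤ → Bt)) (X₀ : Set (ℤ → A)), Measurable φ ∧ μ.map φ = P Bt ∧
      (∀ᵐ x ∂μ, ∀ j : ℤ, shn j x ∈ X₀ ∧ φ x j = φ (shn j x) 0) ∧
      ∀ x ∈ X₀, ∃ n : ℕ, ∀ y ∈ X₀, (∀ i : ℤ, |i| ≤ (n : ℤ) → y i = x i) → φ y 0 = φ x 0 := by
  obtain ⟨hinv, φ, hφ, hmap, X₀, hnull, heq, hfin⟩ := h
  refine ⟨φ, X₀, hφ, ?_, ?_, hfin⟩
  · have : IsProbabilityMeasure (μ.map φ) := Measure.isProbabilityMeasure_map hφ.aemeasurable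
    refine measure_eq_of_windows _ _ _ exists_Icc_superset fun m w => ?_
    have h1 := hmap (Finset.Icc (-(m : ℤ)) m) w
    have h2 : {z : ℤ → Bt | ∀ i ∈ Finset.Icc (-(m : ℤ)) m, z i = w i} =
      cyl (Finset.Icc (-(m : ℤ)) m) w := rfl
    rw [← h2, h1, h2, P_cyl]
    simp [unif_singleton]
  · have h1 : ∀ᵐ x ∂μ, x ∈ X₀ := hnull
    have h2 : ∀ j : ℤ, ∀ᵐ x ∂μ, shn j x ∈ X₀ := by
      intro j
      have h3 : ∀ᵐ x ∂(μ.map (shn j)), x ∈ X₀ := by rw [map_shn hinv j]; exact h1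
      exact ae_of_ae_map (measurable_shn j).aemeasurable h3
    have h4 : ∀ᵐ x ∂μ, ∀ j : ℤ, shn j x ∈ X₀ := ae_all_iff.2 h2
    filter_upwards [h4] with x hx
    have hplus : ∀ j : ℤ, φ (shn (j + 1) x) = sh (φ (shn j x)) := by
      intro j
      have : shn (j + 1) x = fun i => (shn j x) (i + 1) := by
        funext i
        simp only [shn]
        congr 1; ring
      rw [this, heq _ (hx j)]
      rfl
    have hall : ∀ j : ℤ, φ (shn j x) = shn j (φ x) := by
      intro j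
      induction j using Int.induction_on with
      | zero =>
        have : shn 0 x = x := by funext i; simp [shn]
        rw [this]; funext i; simp [shn]
      | succ k ih =>
        rw [hplus, ih]
        funext i
        simp only [shn, sh]
        congr 1; ring
      | pred k ih =>
        have h5 := hplus (-(k : ℤ) - 1)
        have h6 : -(k : ℤ) - 1 + 1 = -k := by ring
        rw [h6, ih] at h5
        funext i
        have h7 := congrFun h5 (i - 1)
        simp only [shn, sh] at h7 ⊢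
        have h8 : i - 1 + 1 = i := by ring
        rw [h8] at h7
        rw [← h7]
        congr 1; ring
    intro j
    refine ⟨hx j, ?_⟩
    rw [hall j]
    simp [shn]

end Pool.Agent.TH288.NB
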