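import Pool.Agent.TH288.NB.Neg1

/-!
# Counting
-/

set_option autoImplicit false

open MeasureTheory Set Filter
open scoped ENNReal Topology

namespace Pool.Agent.TH288.NB

/-- position of offset `e` in region `k` -/
def pos (u : List ℕ) (k e : ℕ) : ℤ := ((k : ℤ) + 1) * NN u + e

theorem pos_div (u : List ℕ) {k e : ℕ} (he : e < NN u) :
    pos u k e / NN u = k + 1 ∧ pos u k e % NN u = e :=
  region_div u k (Int.natCast_nonneg e) (by exact_mod_cast he)

theorem pos_inj (u : List ℕ) {k e k' e' : ℕ} (he : e < NN u) (he' : e' < NN u)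
    (h : pos u k e = pos u k' e') : k = k' ∧ e = e' := by
  obtain ⟨h1, h2⟩ := pos_div u (k := k) he
  obtain ⟨h3, h4⟩ := pos_div u (k := k') he'
  rw [h] at h1 h2
  constructor <;> omega

section

variable (r : ℕ → ℕ) (u : List ℕ)

/-- good location -/
def GLoc (k e : ℕ) : Prop :=
  ∀ j : ℤ, |j| ≤ (r (k / 2) : ℤ) → 0 ≤ (e : ℤ) + j ∧ (e : ℤ) + j < NN u ∧
    ¬ ((u.getD (k / 2) 0 : ℤ) + 1) ∣ ((e : ℤ) + j)

/-- in a region which is not the pivot, the frame looks like a pure sequence -/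
theorem window_eq {q k e : ℕ} (hq : q < 2 * u.length) (hk : k < 2 * u.length) (hqk : k ≠ q)
    (he : e < NN u) (hG : GLoc r u k e) (z : ℤ → Bt) (j : ℤ) (hj : |j| ≤ (r (k / 2) : ℤ)) :
    shn (pos u k e) (Gq u q 0 z) j = pureT (k / 2) (-(e : ℤ)) (shn (pos u k e) z) j := by
  obtain ⟨h0, h1, h2⟩ := hG j hj
  have hb := region_bounds u hk h0 h1
  have hp : j + pos u k e = ((k : ℤ) + 1) * NN u + ((e : ℤ) + j) := by unfold pos; ring
  have hoff : off (MM u) 0 (((k : ℤ) + 1) * NN u + ((e : ℤ) + j)) =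
      ((k : ℤ) + 1) * NN u + ((e : ℤ) + j) := by
    have := off_of_dvd (M := MM u) (θ := 0) (a := 0) (by simp) hb.1 hb.2
    rwa [zero_add] at this
  have hbase : base (MM u) 0 (((k : ℤ) + 1) * NN u + ((e : ℤ) + j)) = 0 := by
    have := base_of_dvd (M := MM u) (θ := 0) (a := 0) (by simp) hb.1 hb.2
    rwa [zero_add] at this
  obtain ⟨hd, hm⟩ := region_div u k h0 h1
  have hN : (0 : ℤ) < NN u := by exact_mod_cast NN_pos u
  have h3 : ¬ (((k : ℤ) + 1) * NN u + ((e : ℤ) + j)) < NN u := by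
    nlinarith [Int.natCast_nonneg k]
  unfold shn
  rw [hp, Gq_apply, hoff, hbase]
  have h4 : (e : ℤ) + j = j - -(e : ℤ) := by ring
  have h5 : ¬ ((k : ℤ) + 1 = (q : ℤ) + 1) := by intro hh; apply hqk; omega
  refine Prod.ext ?_ (Prod.ext ?_ ?_)
  · show mk u (((k : ℤ) + 1) * NN u + ((e : ℤ) + j)) = _
    rw [mk_region u k h0 h1, if_neg h2, h4]
    rfl
  · show (if (((k : ℤ) + 1) * NN u + ((e : ℤ) + j)) / NN u = (q : ℤ) + 1 then _ else
      z (0 + (((k : ℤ) + 1) * NN u + ((e : ℤ) + j)))) = z (j + pos u k e)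
    rw [hd, if_neg h5, zero_add, hp]
  · show (if (((k : ℤ) + 1) * NN u + ((e : ℤ) + j)) < NN u then _ else (0 : Bt)) = 0
    rw [if_neg h3]

theorem P_shn (n : ℤ) : (P Bt).map (shn n) = P Bt := map_P_inj (fun i => i + n) (add_left_injective n)

theorem prob_und (X₀ : Set (ℤ → A)) (φ : (ℤ → A) → (ℤ → Bt)) (ε : ℕ → ℝ≥0∞)
    (hr : ∀ i, ∀ θ : ℤ, P Bt {z | Und X₀ φ (r i) (pureT i θ z)} ≤ ε i)
    {q k e : ℕ} (hq : q < 2 * u.length) (hk : k < 2 * u.length)
    (he : e < NN u) (hG : GLoc r u k e) :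
    P Bt {z | Und X₀ φ (r (k / 2)) (shn (pos u k e) (Gq u q 0 z))} ≤ ε (k / 2) := by
  obtain ⟨q', hq', hqk⟩ : ∃ q', q' < 2 * u.length ∧ k ≠ q' := by
    rcases Nat.eq_zero_or_pos k with h | h
    · exact ⟨1, by omega, by omega⟩
    · exact ⟨0, by omega, by omega⟩
  have hm : MeasurableSet {x : ℤ → A | Und X₀ φ (r (k / 2)) (shn (pos u k e) x)} :=
    (measurable_shn _) (measurableSet_Und X₀ φ _)
  have h1 : P Bt {z | Und X₀ φ (r (k / 2)) (shn (pos u k e) (Gq u q 0 z))} =
      P Bt {z | Und X₀ φ (r (k / 2)) (shn (pos u k e) (Gq u q' 0 z))} := by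
    have a1 := Measure.map_apply (μ := P Bt) (measurable_Gq u q 0) hm
    have a2 := Measure.map_apply (μ := P Bt) (measurable_Gq u q' 0) hm
    rw [map_Gq_eq u q q' hq hq' 0] at a1
    exact a1.symm.trans a2
  have h2 : {z | Und X₀ φ (r (k / 2)) (shn (pos u k e) (Gq u q' 0 z))} =
      shn (pos u k e) ⁻¹' {z | Und X₀ φ (r (k / 2)) (pureT (k / 2) (-(e : ℤ)) z)} := by
    ext z
    exact Und_congr X₀ φ fun j hj => window_eq r u hq' hk hqk he hG z j hj
  have hm2 : MeasurableSet {z | Und X₀ φ (r (k / 2)) (pureT (k / 2) (-(e : ℤ)) z)} :=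
    (measurable_pureT _ _) (measurableSet_Und X₀ φ _)
  rw [h1, h2, ← Measure.map_apply (measurable_shn _) hm2, P_shn]
  exact hr _ _

open Classical in
/-- few bad locations -/
theorem card_not_GLoc (k : ℕ) (hU : u.getD (k / 2) 0 + 1 ≤ NN u)
    (hr : (2 * r (k / 2) + 1) * 2 ^ (k / 2 + 5) ≤ u.getD (k / 2) 0 + 1) :
    ((Finset.range (NN u)).filter fun e => ¬ GLoc r u k e).card * 2 ^ (k / 2 + 5) ≤ 3 * NN u := by
  set U := u.getD (k / 2) 0 + 1 with hUdef
  set N := NN u with hN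
  set ρ := r (k / 2) with hρ
  set S : Finset ℕ := (Finset.range (N / U + 1)).image (fun m => m * U) ∪ {N} with hS
  have hcS : S.card ≤ N / U + 2 := by
    refine (Finset.card_union_le _ _).trans ?_
    rw [Finset.card_singleton]
    have := Finset.card_image_le (s := Finset.range (N / U + 1)) (f := fun m => m * U)
    rw [Finset.card_range] at this
    omega
  have hsub : ((Finset.range N).filter fun e => ¬ GLoc r u k e) ⊆
      S.biUnion fun m => (Finset.Icc (m - ρ) (m + ρ)) := by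
    intro e he
    rw [Finset.mem_filter, Finset.mem_range] at he
    obtain ⟨heN, hbad⟩ := he
    unfold GLoc at hbad
    push Not at hbad
    obtain ⟨j, hj, hbad⟩ := hbad
    have hj' := abs_le.1 hj
    rw [Finset.mem_biUnion]
    by_cases h0 : 0 ≤ (e : ℤ) + j
    · by_cases h1 : (e : ℤ) + j < N
      · have h2 := hbad h0 h1
        obtain ⟨c, hc⟩ := h2
        have hcU : (e : ℤ) + j = c * U := by rw [hc, hUdef]; push_cast; ring
        have hUpos : (0 : ℤ) < U := by rw [hUdef]; positivity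
        have hc0 : 0 ≤ c := by
          by_contra hcon
          have : c * U < 0 := mul_neg_of_neg_of_pos (by omega) hUpos
          omega
        obtain ⟨c', rfl⟩ := Int.eq_ofNat_of_zero_le hc0
        have h3 : c' * U < N := by exact_mod_cast (hcU ▸ h1)
        refine ⟨c' * U, ?_, ?_⟩
        · rw [hS, Finset.mem_union, Finset.mem_image]
          refine Or.inl ⟨c', ?_, rfl⟩
          rw [Finset.mem_range, Nat.lt_succ_iff, Nat.le_div_iff_mul_le (by omega)]
          exact h3.le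
        · rw [Finset.mem_Icc]
          have h4 : (e : ℤ) + j = ((c' * U : ℕ) : ℤ) := by rw [hcU]; push_cast; ring
          constructor <;> omega
      · refine ⟨N, ?_, ?_⟩
        · rw [hS, Finset.mem_union]; exact Or.inr (Finset.mem_singleton_self _)
        · rw [Finset.mem_Icc]
          constructor <;> omega
    · refine ⟨0, ?_, ?_⟩
      · rw [hS, Finset.mem_union, Finset.mem_image]
        exact Or.inl ⟨0, by simp, by simp⟩
      · rw [Finset.mem_Icc]
        constructor <;> omega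
  have h1 : ((Finset.range N).filter fun e => ¬ GLoc r u k e).card ≤ (N / U + 2) * (2 * ρ + 1) := by
    refine (Finset.card_le_card hsub).trans ?_
    refine (Finset.card_biUnion_le_card_mul _ _ (2 * ρ + 1) fun m _ => ?_).trans
      (Nat.mul_le_mul_right _ hcS)
    rw [Nat.card_Icc]
    omega
  calc ((Finset.range N).filter fun e => ¬ GLoc r u k e).card * 2 ^ (k / 2 + 5)
      ≤ (N / U + 2) * (2 * ρ + 1) * 2 ^ (k / 2 + 5) := Nat.mul_le_mul_right _ h1
    _ = (N / U + 2) * ((2 * ρ + 1) * 2 ^ (k / 2 + 5)) := by ring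
    _ ≤ (N / U + 2) * U := Nat.mul_le_mul_left _ hr
    _ = N / U * U + 2 * U := by ring
    _ ≤ N + 2 * N := by
        have := Nat.div_mul_le_self N U
        omega
    _ = 3 * N := by ring

end

theorem sum_half (m : ℕ) : ∑ k ∈ Finset.range (2 * m), ((2 : ℝ≥0∞)⁻¹) ^ (k / 2 + 3) +
    (2⁻¹) ^ (m + 1) = 2⁻¹ := by
  have hh : ∀ n : ℕ, ((2 : ℝ≥0∞)⁻¹) ^ (n + 1) + (2⁻¹) ^ (n + 1) = (2⁻¹) ^ n := by
    intro n
    rw [← two_mul, pow_succ, mul_comm, mul_assoc, ENNReal.inv_mul_cancel (by simp) (by simp),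
      mul_one]
  induction m with
  | zero => simp
  | succ m ih =>
    have : 2 * (m + 1) = 2 * m + 1 + 1 := by ring
    rw [this, Finset.sum_range_succ, Finset.sum_range_succ]
    have h1 : (2 * m) / 2 = m := by omega
    have h2 : (2 * m + 1) / 2 = m := by omega
    rw [h1, h2, add_assoc (∑ k ∈ Finset.range (2 * m), _), hh (m + 2), add_assoc, hh (m + 1), ih]

end Pool.Agent.TH288.NB
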