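import Pool.Agent.TH288.NB.Tree

/-!
# A branch gives a finitary factor map
-/

set_option autoImplicit false

open MeasureTheory Set Filter
open scoped ENNReal Topology

namespace Pool.Agent.TH288.NB

open Pool.Agent.H534R3.NonBorel (br length_br br_eq_iff)

theorem dvd_sub_emod (a b : ℤ) : b ∣ a - a % b :=
  ⟨a / b, by have := Int.emod_add_mul_ediv a b; linarith⟩

theorem emod_le_self' {a b : ℤ} (ha : 0 ≤ a) (hb : 0 < b) : a % b ≤ a := by
  have h1 := Int.emod_add_mul_ediv a b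
  have h2 := Int.ediv_nonneg ha hb.le
  nlinarith

theorem mk_eq_three (u : List ℕ) (d : ℤ) : mk u d = 3 ↔ d = 0 := by
  unfold mk
  split_ifs with h1 h2 h3 h4 <;> simp_all

theorem pureT_shn (i : ℕ) (θ n : ℤ) (z : ℤ → Bt) :
    shn n (pureT i θ z) = pureT i (θ - n) (shn n z) := by
  funext j
  unfold shn pureT
  have : j + n - θ = j - (θ - n) := by ring
  simp only [this]

theorem pureT_fst_ne {i : ℕ} {θ : ℤ} {z : ℤ → Bt} {j : ℤ} :
    (pureT i θ z j).1 ≠ 2 ∧ (pureT i θ z j).1 ≠ 3 := by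
  unfold pureT
  simp only
  split_ifs <;> decide

/-- marker in the region `k` at offset `e` -/
theorem mk_region (u : List ℕ) (k : ℕ) {e : ℤ} (h0 : 0 ≤ e) (h1 : e < NN u) :
    mk u (((k : ℤ) + 1) * NN u + e) =
      if ((u.getD (k / 2) 0 : ℤ) + 1) ∣ e then 2 else if (((k / 2 : ℕ) : ℤ) + 1) ∣ e then 1 else 0 := by
  have hN : (0 : ℤ) < NN u := by exact_mod_cast NN_pos u
  obtain ⟨hd, hm⟩ := region_div u k h0 h1
  have h2 : (NN u : ℤ) ≤ ((k : ℤ) + 1) * NN u + e := by nlinarith [Int.natCast_nonneg k]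
  unfold mk
  rw [if_neg (by omega), if_neg (by omega), hd, hm]
  have h3 : ((k : ℤ) + 1).toNat - 1 = k := by omega
  rw [h3]

section Key

variable (t : List ℕ → Bool) (f : ℕ → ℕ) (c : List ℕ → ℕ)

/-- the relation defining the coded symbol at the origin -/
def Rel (x : ℤ → A) (b : Bt) : Prop :=
  (∃ (i : ℕ) (θ : ℤ) (z : ℤ → Bt), x = pureT i θ z ∧ b = z 0) ∨
  ∃ u, Obs t u ∧ ∃ (θ : ℤ) (z : ℤ → Bt), x = Gq u (2 * c u) θ z ∧ b = z 0

theorem Gq_apply (u : List ℕ) (q : ℕ) (θ : ℤ) (z : ℤ → Bt) (j : ℤ) :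
    Gq u q θ z j = gq u q (fun d => z (base (MM u) θ j + d)) (off (MM u) θ j) := rfl

theorem key_pure (hc : ∀ u, Obs t u → c u < u.length ∧ u.getD (c u) 0 < f (c u))
    (i : ℕ) (θ : ℤ) (z : ℤ → Bt) (x' : ℤ → A) (b' : Bt)
    (hag : ∀ j : ℤ, |j| ≤ ((f i + 2 * (i + 1) : ℕ) : ℤ) → x' j = pureT i θ z j)
    (hR : Rel t c x' b') : b' = z 0 := by
  have h00 : x' 0 = pureT i θ z 0 := hag 0 (by simp; positivity)
  rcases hR with ⟨i', θ', z', rfl, rfl⟩ | ⟨u, hu, θ', z', rfl, rfl⟩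
  · have := congrArg (fun a : A => a.2.1) h00
    exact this
  obtain ⟨hcu, hcf⟩ := hc u hu
  have hN : (0 : ℤ) < NN u := by exact_mod_cast NN_pos u
  have hM := MMz_pos u
  set d := off (MM u) θ' 0 with hd
  set a := base (MM u) θ' 0 with ha
  have had : a + d = 0 := base_add_off _ _ _
  have hd0 : 0 ≤ d := off_nonneg hM _ _
  have hd1 : d < MM u := off_lt hM _ _
  by_cases hreg : d / NN u = (2 * c u : ℕ) + 1
  swap
  · -- the symbol is visible
    have h1 : (Gq u (2 * c u) θ' z' 0).2.1 = z' 0 := by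
      rw [Gq_apply]
      simp only [gq]
      rw [← hd, ← ha, if_neg hreg, had]
    rw [← h1, h00]
    rfl
  exfalso
  set e := d % NN u with he
  have e0 : 0 ≤ e := Int.emod_nonneg d hN.ne'
  have e1 : e < NN u := Int.emod_lt_of_pos d hN
  have hde : d = (((2 * c u : ℕ) : ℤ) + 1) * NN u + e := region_decomp u hreg
  -- markers at nearby positions of the region
  have hmark : ∀ j : ℤ, j ≤ 0 → 0 ≤ e + j → (Gq u (2 * c u) θ' z' j).1 =
      if ((u.getD (c u) 0 : ℤ) + 1) ∣ (e + j) then 2 else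
        if (((c u : ℕ) : ℤ) + 1) ∣ (e + j) then 1 else 0 := by
    intro j hj1 hj2
    have hb := region_bounds u (k := 2 * c u) (by omega) hj2 (by omega)
    have hj : j = a + ((((2 * c u : ℕ) : ℤ) + 1) * NN u + (e + j)) := by linarith
    have h1 : off (MM u) θ' j = (((2 * c u : ℕ) : ℤ) + 1) * NN u + (e + j) := by
      rw [hj]
      convert off_of_dvd (dvd_base_sub (MM u) θ' 0) hb.1 hb.2 using 2
      linarith
    rw [Gq_apply]
    simp only [gq]
    rw [h1, mk_region u (2 * c u) hj2 (by omega)]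
    have h2 : 2 * c u / 2 = c u := by omega
    rw [h2]
  set U : ℤ := (u.getD (c u) 0 : ℤ) + 1 with hU
  have hUpos : 0 < U := by positivity
  -- the separator to the left is far away
  have hfar : ((f i + 2 * (i + 1) : ℕ) : ℤ) < e % U := by
    by_contra hcon
    push Not at hcon
    have h1 := Int.emod_nonneg e hUpos.ne'
    have h2 : e % U ≤ e := emod_le_self' e0 hUpos
    have h3 := hmark (-(e % U)) (by omega) (by omega)
    have h4 : U ∣ e + -(e % U) := by
      have := dvd_sub_emod e U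
      rwa [sub_eq_add_neg] at this
    rw [if_pos h4, hag _ (by rw [abs_neg, abs_of_nonneg h1]; exact hcon)] at h3
    exact pureT_fst_ne.1 h3
  have hfar2 : e % U < U := Int.emod_lt_of_pos e hUpos
  have hmodle : e % U ≤ e := emod_le_self' e0 hUpos
  have hnosep : ∀ j : ℤ, j ≤ 0 → -((f i + 2 * (i + 1) : ℕ) : ℤ) ≤ j → ¬ U ∣ (e + j) := by
    intro j hj1 hj2 hdv
    have h1 := dvd_sub hdv (dvd_sub_emod e U)
    have h2 : e + j - (e - e % U) = e % U + j := by ring
    rw [h2] at h1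
    have h3 := Int.le_of_dvd (by omega) h1
    omega
  -- marks agree
  have hagree : ∀ j : ℤ, j ≤ 0 → -((f i + 2 * (i + 1) : ℕ) : ℤ) ≤ j →
      (((c u : ℤ) + 1) ∣ (e + j) ↔ ((i : ℤ) + 1) ∣ (j - θ)) := by
    intro j hj1 hj2
    have h1 := hmark j hj1 (by omega)
    rw [if_neg (hnosep j hj1 hj2), hag j (by rw [abs_of_nonpos hj1]; omega)] at h1
    unfold pureT at h1
    simp only at h1
    constructor
    · intro h
      rw [if_pos h] at h1
      by_contra h2
      rw [if_neg h2] at h1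
      exact absurd h1 (by decide)
    · intro h
      rw [if_pos h] at h1
      by_contra h2
      rw [if_neg h2] at h1
      exact absurd h1 (by decide)
  have hi1 : (0 : ℤ) < (i : ℤ) + 1 := by positivity
  set j0 : ℤ := -((-θ) % ((i : ℤ) + 1)) with hj0
  have hj0a := Int.emod_nonneg (-θ) hi1.ne'
  have hj0b := Int.emod_lt_of_pos (-θ) hi1
  have hj0d : ((i : ℤ) + 1) ∣ (j0 - θ) := by
    have := dvd_sub_emod (-θ) ((i : ℤ) + 1)
    have h : -θ - -θ % ((i : ℤ) + 1) = j0 - θ := by rw [hj0]; ring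
    rwa [h] at this
  have k1 : ((c u : ℤ) + 1) ∣ (e + j0) := (hagree j0 (by omega) (by push_cast; omega)).2 hj0d
  have k2 : ((c u : ℤ) + 1) ∣ (e + (j0 - (i + 1))) := by
    refine (hagree (j0 - (i + 1)) (by omega) (by push_cast; omega)).2 ?_
    have : j0 - ((i : ℤ) + 1) - θ = (j0 - θ) - ((i : ℤ) + 1) := by ring
    rw [this]
    exact dvd_sub hj0d (dvd_refl _)
  have k3 : ((c u : ℤ) + 1) ∣ ((i : ℤ) + 1) := by
    have := dvd_sub k1 k2
    have h : e + j0 - (e + (j0 - ((i : ℤ) + 1))) = (i : ℤ) + 1 := by ring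
    rwa [h] at this
  have k4 := Int.le_of_dvd hi1 k3
  have k5 : ((i : ℤ) + 1) ∣ (j0 - ((c u : ℤ) + 1) - θ) := by
    refine (hagree (j0 - (c u + 1)) (by omega) (by push_cast; omega)).1 ?_
    have : e + (j0 - ((c u : ℤ) + 1)) = (e + j0) - ((c u : ℤ) + 1) := by ring
    rw [this]
    exact dvd_sub k1 (dvd_refl _)
  have k6 : ((i : ℤ) + 1) ∣ ((c u : ℤ) + 1) := by
    have := dvd_sub hj0d k5
    have h : j0 - θ - (j0 - ((c u : ℤ) + 1) - θ) = (c u : ℤ) + 1 := by ring
    rwa [h] at this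
  have k7 := Int.le_of_dvd (by positivity) k6
  have k8 : c u = i := by omega
  have k9 : (u.getD (c u) 0 : ℤ) < f (c u) := by exact_mod_cast hcf
  have k10 : f (c u) = f i := by rw [k8]
  push_cast at hfar
  omega

theorem key_frame (u : List ℕ) (θ : ℤ) (z : ℤ → Bt) (x' : ℤ → A) (b' : Bt)
    (hag : ∀ j : ℤ, |j| ≤ ((2 * MM u : ℕ) : ℤ) → x' j = Gq u (2 * c u) θ z j)
    (hR : Rel t c x' b') : b' = z 0 := by
  have hM := MMz_pos u
  set d := off (MM u) θ 0 with hd
  set a := base (MM u) θ 0 with ha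
  have had : a + d = 0 := base_add_off _ _ _
  have hd0 : 0 ≤ d := off_nonneg hM _ _
  have hd1 : d < MM u := off_lt hM _ _
  have hadv : (MM u : ℤ) ∣ a - θ := dvd_base_sub _ _ _
  have hthree : ∀ (v : List ℕ) (q : ℕ) (θ' : ℤ) (z' : ℤ → Bt) (j : ℤ),
      (Gq v q θ' z' j).1 = 3 ↔ (MM v : ℤ) ∣ j - θ' := by
    intro v q θ' z' j
    rw [Gq_apply]
    simp only [gq]
    rw [mk_eq_three]
    unfold off
    exact (Int.dvd_iff_emod_eq_zero).symm
  have ha3 : (Gq u (2 * c u) θ z a).1 = 3 := (hthree _ _ _ _ _).2 hadv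
  have haa : |a| ≤ ((2 * MM u : ℕ) : ℤ) := by rw [abs_le]; push_cast; omega
  rcases hR with ⟨i', θ', z', rfl, rfl⟩ | ⟨u', hu', θ', z', rfl, rfl⟩
  · exfalso
    rw [← hag a haa] at ha3
    exact pureT_fst_ne.2 ha3
  have hM' := MMz_pos u'
  have h1 : (MM u' : ℤ) ∣ a - θ' := (hthree _ _ _ _ _).1 (by rw [hag a haa]; exact ha3)
  have h2 : (MM u' : ℤ) ∣ (a + MM u) - θ' := by
    refine (hthree u' (2 * c u') θ' z' _).1 ?_
    rw [hag _ (by rw [abs_le]; push_cast; omega), hthree]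
    have : a + (MM u : ℤ) - θ = (a - θ) + MM u := by ring
    rw [this]
    exact dvd_add hadv (dvd_refl _)
  have h3 : (MM u' : ℤ) ∣ (MM u : ℤ) := by
    have := dvd_sub h2 h1
    have h : a + (MM u : ℤ) - θ' - (a - θ') = MM u := by ring
    rwa [h] at this
  have h4 := Int.le_of_dvd hM h3
  have h5 : (MM u : ℤ) ∣ (a + MM u') - θ := by
    refine (hthree u (2 * c u) θ z _).1 ?_
    rw [← hag _ (by rw [abs_le]; push_cast; omega), hthree]
    have : a + (MM u' : ℤ) - θ' = (a - θ') + MM u' := by ring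
    rw [this]
    exact dvd_add h1 (dvd_refl _)
  have h6 : (MM u : ℤ) ∣ (MM u' : ℤ) := by
    have := dvd_sub h5 hadv
    have h : a + (MM u' : ℤ) - θ - (a - θ) = MM u' := by ring
    rwa [h] at this
  have h7 := Int.le_of_dvd hM' h6
  have h8 : u' = u := MM_inj (by omega)
  subst h8
  have h9 : off (MM u') θ' 0 = d := by
    rw [← had]
    exact off_of_dvd h1 hd0 hd1
  have h10 : base (MM u') θ' 0 = a := by
    rw [← had]
    exact base_of_dvd h1 hd0 hd1
  have e1 : z' 0 = Fq u' (2 * c u') θ' (Gq u' (2 * c u') θ' z') 0 := by rw [Fq_Gq]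
  have e2 : z 0 = Fq u' (2 * c u') θ (Gq u' (2 * c u') θ z) 0 := by rw [Fq_Gq]
  rw [e1, e2]
  unfold Fq Blk
  rw [h9, h10, ← hd, ← ha]
  refine Loc_fq u' (2 * c u') _ _ (fun e he0 he1 => ?_) d hd0 hd1
  refine hag _ ?_
  rw [abs_le]; push_cast; omega

end Key

end Pool.Agent.TH288.NB
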