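import Pool.Agent.TH288.NB.Pos

/-!
# A branch gives a finitary factor map: conclusion
-/

set_option autoImplicit false

open MeasureTheory Set Filter
open scoped ENNReal Topology

namespace Pool.Agent.TH288.NB

open Pool.Agent.H534R3.NonBorel (br length_br br_eq_iff)

/-- the set of measures in question, for source alphabet `A` and target `Bt` -/
def Fac (μ : Measure (ℤ → A)) : Prop :=
  Measure.map (fun x : ℤ → A => fun i => x (i + 1)) μ = μ ∧
        ∃ φ : (ℤ → A) → (ℤ → Bt), Measurable φ ∧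
          (∀ (s : Finset ℤ) (w : ℤ → Bt),
            Measure.map φ μ {z | ∀ i ∈ s, z i = w i}
              = ∏ i ∈ s, (unif Bt) {w i}) ∧
          ∃ X₀ : Set (ℤ → A), μ X₀ᶜ = 0 ∧
            (∀ x ∈ X₀, φ (fun i => x (i + 1)) = fun i => φ x (i + 1)) ∧
            ∀ x ∈ X₀, ∃ n : ℕ, ∀ y ∈ X₀,
              (∀ i : ℤ, |i| ≤ (n : ℤ) → y i = x i) → φ y 0 = φ x 0

theorem measurableSet_window {β : Type*} [Fintype β] [MeasurableSpace β]
    [MeasurableSingletonClass β] (n : ℕ) (S : Set (ℤ → β))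
    (hS : ∀ x y : ℤ → β, (∀ i : ℤ, |i| ≤ (n : ℤ) → y i = x i) → x ∈ S → y ∈ S) :
    MeasurableSet S := by
  classical
  set I : Finset ℤ := Finset.Icc (-(n : ℤ)) n
  have h1 : S = (Finset.restrict (π := fun _ => β) I) ⁻¹'
      ((Finset.restrict (π := fun _ => β) I) '' S) := by
    ext x
    constructor
    · intro hx; exact ⟨x, hx, rfl⟩
    · rintro ⟨y, hy, hxy⟩
      refine hS y x (fun i hi => ?_) hy
      have hiI : i ∈ I := by rw [Finset.mem_Icc]; exact abs_le.1 hi
      exact (congrFun hxy ⟨i, hiI⟩).symm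
  rw [h1]
  exact (Finset.measurable_restrict I) (Set.toFinite _).measurableSet

theorem measurableSet_fix (g : (ℤ → A) → (ℤ → A)) (hg : Measurable g) :
    MeasurableSet {x | g x = x} := by
  have : {x | g x = x} = ⋂ j : ℤ, {x | g x j = x j} := by
    ext x
    simp only [mem_iInter]
    exact funext_iff
  rw [this]
  refine MeasurableSet.iInter fun j => ?_
  have h2 : {x : ℤ → A | g x j = x j} = ⋃ a : A, ((fun x => g x j) ⁻¹' {a}) ∩
      ((fun x : ℤ → A => x j) ⁻¹' {a}) := by
    ext x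
    simp only [mem_iUnion]
    constructor
    · intro hx; exact ⟨x j, hx, rfl⟩
    · rintro ⟨a, h1, h2⟩; exact h1.trans h2.symm
  rw [h2]
  refine MeasurableSet.iUnion fun a => ?_
  exact (((measurable_pi_apply j).comp hg) (measurableSet_singleton a)).inter
    ((measurable_pi_apply j) (measurableSet_singleton a))

theorem map_comp_id (G : (ℤ → Bt) → (ℤ → A)) (hG : Measurable G) (φ : (ℤ → A) → (ℤ → Bt))
    (hφ : Measurable φ) (h : ∀ z, φ (G z) = z) : ((P Bt).map G).map φ = P Bt := by
  rw [Measure.map_map hφ hG]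
  have : φ ∘ G = id := funext h
  rw [this, Measure.map_id]

theorem avg_map_of (M : ℕ) (hM : 0 < M) (G : ℤ → (ℤ → Bt) → (ℤ → A)) (hG : ∀ θ, Measurable (G θ))
    (φ : (ℤ → A) → (ℤ → Bt)) (hφ : Measurable φ)
    (h : ∀ θ, ((P Bt).map (G θ)).map φ = P Bt) : (avg M G).map φ = P Bt := by
  unfold avg
  rw [← Measure.mapₗ_apply_of_measurable hφ, map_sum]
  simp only [Measure.mapₗ_apply_of_measurable hφ, Measure.map_smul, h]
  rw [Finset.sum_const, Finset.card_range]
  ext s _
  rw [Measure.smul_apply, Measure.smul_apply, nsmul_eq_mul, smul_eq_mul, ← mul_assoc,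
    ENNReal.mul_inv_cancel (by simp; omega) (by simp), one_mul]

theorem avg_null (M : ℕ) (G : ℤ → (ℤ → Bt) → (ℤ → A)) (hG : ∀ θ, Measurable (G θ))
    (S : Set (ℤ → A)) (hS : MeasurableSet S) (h : ∀ θ, (P Bt).map (G θ) S = 0) :
    avg M G S = 0 := by
  unfold avg
  rw [Measure.finsetSum_apply]
  refine Finset.sum_eq_zero fun θ _ => ?_
  rw [Measure.smul_apply, h, smul_zero]

open Classical in
/-- **A branch gives a finitary factor map onto the coin tossing process.** -/
theorem fac_of_branch (t : List ℕ → Bool) (f : ℕ → ℕ) (hf : ∀ n, t (br f n) = true) :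
    Fac (mu t) := by
  refine ⟨mu_inv t, ?_⟩
  have hex : ∀ u, ∃ c, Obs t u → c < u.length ∧ u.getD c 0 < f c := by
    intro u
    by_cases hu : Obs t u
    · obtain ⟨c, h1, h2⟩ := exists_late t f hf u hu
      exact ⟨c, fun _ => ⟨h1, h2⟩⟩
    · exact ⟨0, fun h => absurd h hu⟩
  choose c hc using hex
  -- key property
  have key : ∀ x b, Rel t c x b → ∃ r : ℕ, ∀ x', (∀ j : ℤ, |j| ≤ (r : ℤ) → x' j = x j) →
      ∀ b', Rel t c x' b' → b' = b := by
    rintro x b (⟨i, θ, z, rfl, rfl⟩ | ⟨u, hu, θ, z, rfl, rfl⟩)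
    · exact ⟨f i + 2 * (i + 1), fun x' hx' b' hb' => key_pure t f c hc i θ z x' b' hx' hb'⟩
    · exact ⟨2 * MM u, fun x' hx' b' hb' => key_frame t c u θ z x' b' hx' hb'⟩
  let W : ℕ → Set (ℤ → A) := fun r => {x | ∃ y, (∀ j : ℤ, |j| ≤ (r : ℤ) → y j = x j) ∧
    Rel t c y 1 ∧ ∀ y', (∀ j : ℤ, |j| ≤ (r : ℤ) → y' j = x j) → ∀ b', Rel t c y' b' → b' = 1}
  have hW : ∀ r, MeasurableSet (W r) := by
    intro r
    refine measurableSet_window r _ ?_
    rintro x x' hxx ⟨y, hy1, hy2, hy3⟩
    refine ⟨y, fun j hj => by rw [hy1 j hj, hxx j hj], hy2, fun y' hy' b' hb' => ?_⟩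
    exact hy3 y' (fun j hj => by rw [hy' j hj, hxx j hj]) b' hb'
  let h : (ℤ → A) → Bt := fun x => if x ∈ ⋃ r, W r then 1 else 0
  have hh : Measurable h := by
    refine Measurable.ite (MeasurableSet.iUnion hW) measurable_const measurable_const
  have hval : ∀ x b, Rel t c x b → h x = b := by
    intro x b hb
    obtain ⟨r, hr⟩ := key x b hb
    rcases Fin.exists_fin_two.1 ⟨b, rfl⟩ with h0 | h0
    · subst h0
      have : x ∉ ⋃ r, W r := by
        intro hx
        obtain ⟨r', y, hy1, hy2, hy3⟩ := mem_iUnion.1 hx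
        exact absurd (hy3 x (fun _ _ => rfl) 0 hb) (by decide)
      simp only [h, if_neg this]
    · subst h0
      have : x ∈ ⋃ r, W r := mem_iUnion.2 ⟨r, x, fun _ _ => rfl, hb, fun y' hy' b' hb' =>
        hr y' hy' b' hb'⟩
      simp only [h, if_pos this]
  let φ : (ℤ → A) → (ℤ → Bt) := fun x j => h (shn j x)
  have hφ : Measurable φ := measurable_pi_iff.2 fun j => hh.comp (measurable_shn j)
  have hφp : ∀ i θ z, φ (pureT i θ z) = z := by
    intro i θ z
    funext j
    refine hval _ _ (Or.inl ⟨i, θ - j, shn j z, pureT_shn i θ j z, ?_⟩)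
    simp [shn]
  have hφG : ∀ u, Obs t u → ∀ θ z, φ (Gq u (2 * c u) θ z) = z := by
    intro u hu θ z
    funext j
    refine hval _ _ (Or.inr ⟨u, hu, θ - j, shn j z, Blk_shn _ _ _ _ _, ?_⟩)
    simp [shn]
  have hnu : ∀ u, Obs t u → nuT t u = avg (MM u) (Gq u (2 * c u)) := by
    intro u hu
    unfold nuT
    rw [if_pos hu]
    unfold avg
    refine Finset.sum_congr rfl fun θ _ => ?_
    have h1 := (hc u hu).1
    rw [map_Gq_eq u 0 (2 * c u) (by omega) (by omega)]
  refine ⟨φ, hφ, ?_, ?_⟩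
  · -- the image is the product measure
    have h1 : (mu t).map φ = P Bt := by
      unfold mu
      rw [Measure.map_sum hφ.aemeasurable]
      have h2 : ∀ e : ℕ, Measure.map φ (((2 : ℝ≥0∞)⁻¹) ^ (e + 2) •
          (avg (e + 1) (pureT e) + nuT t (Denumerable.ofNat (List ℕ) e))) =
          ((2 : ℝ≥0∞)⁻¹) ^ (e + 2) • (P Bt + P Bt) := by
        intro e
        rw [Measure.map_smul, Measure.map_add _ _ hφ,
          avg_map_of _ (Nat.succ_pos e) _ (measurable_pureT e) φ hφ
            (fun θ => map_comp_id _ (measurable_pureT e θ) φ hφ (hφp e θ))]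
        congr 2
        set u := Denumerable.ofNat (List ℕ) e
        by_cases hu : Obs t u
        · rw [hnu u hu]
          exact avg_map_of _ (MM_pos u) _ (measurable_Gq u _) φ hφ
            (fun θ => map_comp_id _ (measurable_Gq u _ θ) φ hφ (hφG u hu θ))
        · unfold nuT
          rw [if_neg hu]
          exact avg_map_of _ Nat.one_pos _ (measurable_pureT 0) φ hφ
            (fun θ => map_comp_id _ (measurable_pureT 0 θ) φ hφ (hφp 0 θ))
      simp only [h2]
      ext s hs
      rw [Measure.sum_apply _ hs]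
      simp only [Measure.smul_apply, Measure.add_apply, smul_eq_mul]
      rw [ENNReal.tsum_mul_right]
      have h3 : ∑' e : ℕ, ((2 : ℝ≥0∞)⁻¹) ^ (e + 2) = 2⁻¹ := by
        have : ∀ e : ℕ, ((2 : ℝ≥0∞)⁻¹) ^ (e + 2) = ((2 : ℝ≥0∞)⁻¹) ^ (e + 1) * 2⁻¹ := fun e =>
          pow_succ _ _
        simp only [this]
        rw [ENNReal.tsum_mul_right, ENNReal.tsum_geometric_add_one, ENNReal.one_sub_inv_two, inv_inv,
          ENNReal.inv_mul_cancel (by simp) (by simp), one_mul]
      rw [h3, ← two_mul, ← mul_assoc, ENNReal.inv_mul_cancel (by simp) (by simp), one_mul]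
    intro s w
    rw [h1]
    have h2 := P_cyl (α := Bt) s w
    have h3 : {z : ℤ → Bt | ∀ i ∈ s, z i = w i} = cyl s w := rfl
    rw [h3, h2]
    simp [unif_singleton]
  · refine ⟨{x | ∃ b, Rel t c x b}, ?_, ?_, ?_⟩
    · -- full measure
      let Y : Set (ℤ → A) := (⋃ i : ℕ, ⋃ θ : ℤ, {x | pureT i θ (fun j => (x j).2.1) = x}) ∪
        ⋃ u : List ℕ, ⋃ _ : Obs t u, ⋃ θ : ℤ, {x | Gq u (2 * c u) θ (Fq u (2 * c u) θ x) = x}
      have hYm : MeasurableSet Y := by
        refine MeasurableSet.union ?_ ?_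
        · refine MeasurableSet.iUnion fun i => MeasurableSet.iUnion fun θ => measurableSet_fix _ ?_
          refine (measurable_pureT i θ).comp ?_
          refine measurable_pi_iff.2 fun j => ?_
          exact (measurable_pi_apply j).snd.fst
        · refine MeasurableSet.iUnion fun u => MeasurableSet.iUnion fun _ =>
            MeasurableSet.iUnion fun θ => measurableSet_fix _ ?_
          exact (measurable_Gq u _ θ).comp (measurable_Blk _ _ _ (measurable_fq u _))
      have hYsub : Y ⊆ {x | ∃ b, Rel t c x b} := by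
        rintro x (hx | hx)
        · simp only [mem_iUnion] at hx
          obtain ⟨i, θ, hx⟩ := hx
          exact ⟨_, Or.inl ⟨i, θ, _, hx.symm, rfl⟩⟩
        · simp only [mem_iUnion] at hx
          obtain ⟨u, hu, θ, hx⟩ := hx
          exact ⟨_, Or.inr ⟨u, hu, θ, _, hx.symm, rfl⟩⟩
      refine measure_mono_null (compl_subset_compl.2 hYsub) ?_
      have hpz : ∀ i θ, (P Bt).map (pureT i θ) Yᶜ = 0 := by
        intro i θ
        rw [Measure.map_apply (measurable_pureT i θ) hYm.compl]
        have : pureT i θ ⁻¹' Yᶜ = ∅ := by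
          rw [eq_empty_iff_forall_notMem]
          intro z hz
          refine hz (Or.inl (mem_iUnion.2 ⟨i, mem_iUnion.2 ⟨θ, ?_⟩⟩))
          rfl
        rw [this, measure_empty]
      have hGz : ∀ u, Obs t u → ∀ θ, (P Bt).map (Gq u (2 * c u) θ) Yᶜ = 0 := by
        intro u hu θ
        rw [Measure.map_apply (measurable_Gq u _ θ) hYm.compl]
        have : Gq u (2 * c u) θ ⁻¹' Yᶜ = ∅ := by
          rw [eq_empty_iff_forall_notMem]
          intro z hz
          refine hz (Or.inr (mem_iUnion.2 ⟨u, mem_iUnion.2 ⟨hu, mem_iUnion.2 ⟨θ, ?_⟩⟩⟩))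
          show Gq u (2 * c u) θ (Fq u (2 * c u) θ (Gq u (2 * c u) θ z)) = Gq u (2 * c u) θ z
          rw [Fq_Gq]
        rw [this, measure_empty]
      unfold mu
      rw [Measure.sum_apply _ hYm.compl, ENNReal.tsum_eq_zero]
      intro e
      rw [Measure.smul_apply, Measure.add_apply, avg_null _ _ (measurable_pureT e) _ hYm.compl
        (hpz e), zero_add]
      set u := Denumerable.ofNat (List ℕ) e
      by_cases hu : Obs t u
      · rw [hnu u hu, avg_null _ _ (measurable_Gq u _) _ hYm.compl (hGz u hu), smul_zero]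
      · unfold nuT
        rw [if_neg hu, avg_null _ _ (measurable_pureT 0) _ hYm.compl (hpz 0), smul_zero]
    · intro x _
      funext j
      show h (shn j (fun i => x (i + 1))) = h (shn (j + 1) x)
      congr 1
      funext i
      simp only [shn]
      congr 1
      ring
    · rintro x ⟨b, hb⟩
      obtain ⟨r, hr⟩ := key x b hb
      refine ⟨r, ?_⟩
      rintro y ⟨b', hb'⟩ hy
      have h0 : ∀ x : ℤ → A, φ x 0 = h x := by
        intro x
        show h (shn 0 x) = h x
        congr 1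
        funext i
        simp [shn]
      rw [h0, h0, hval y b' hb', hval x b hb]
      exact hr y hy b' hb'

end Pool.Agent.TH288.NB
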