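import Pool.Agent.TH288.NB.Meas

/-!
# Branches and obstructions
-/

set_option autoImplicit false

open MeasureTheory Set Filter
open scoped ENNReal Topology

namespace Pool.Agent.TH288.NB

open Pool.Agent.H534R3.NonBorel (br length_br br_eq_iff)

theorem mem_sections_iff (u s : List ℕ) :
    s ∈ List.sections (u.map (fun a => List.range (a + 1))) ↔
      s.length = u.length ∧ ∀ i < u.length, s.getD i 0 ≤ u.getD i 0 := by
  rw [List.mem_sections, List.forall₂_iff_get]
  simp only [List.length_map, List.get_eq_getElem, List.getElem_map, List.mem_range]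
  constructor
  · rintro ⟨h1, h2⟩
    refine ⟨h1, fun i hi => ?_⟩
    have := h2 i (by omega) hi
    rw [List.getD_eq_getElem _ _ (by omega), List.getD_eq_getElem _ _ hi]
    omega
  · rintro ⟨h1, h2⟩
    refine ⟨h1, fun i hi hi' => ?_⟩
    have := h2 i hi'
    rw [List.getD_eq_getElem _ _ hi, List.getD_eq_getElem _ _ hi'] at this
    omega

theorem take_br (f : ℕ → ℕ) {n k : ℕ} (h : k ≤ n) : (br f n).take k = br f k := by
  unfold br
  rw [← List.map_take, List.take_range, min_eq_left h]

theorem getD_br (f : ℕ → ℕ) {n i : ℕ} (h : i < n) : (br f n).getD i 0 = f i := by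
  unfold br
  rw [List.getD_eq_getElem _ _ (by simpa using h)]
  simp

theorem exists_late (t : List ℕ → Bool) (f : ℕ → ℕ) (hf : ∀ n, t (br f n) = true) (u : List ℕ)
    (hu : Obs t u) : ∃ c < u.length, u.getD c 0 < f c := by
  by_contra hcon
  push Not at hcon
  refine hu.2 ⟨br f u.length, ?_, ?_⟩
  · rw [mem_sections_iff]
    refine ⟨by simp, fun i hi => ?_⟩
    rw [getD_br f hi]
    exact hcon i hi
  · intro k hk
    rw [take_br f (by simpa [Nat.lt_succ_iff] using hk)]
    exact hf k

theorem exists_obs (t : List ℕ → Bool) (ht : ¬ ∃ f : ℕ → ℕ, ∀ n, t (br f n) = true) (g : ℕ → ℕ) :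
    ∃ n, Obs t (br g (n + 1)) := by
  by_contra hcon
  push Not at hcon
  have hgood : ∀ n, Good t (br g (n + 1)) := by
    intro n
    by_contra h
    refine hcon n ⟨?_, h⟩
    intro h0
    have := congrArg List.length h0
    simp at this
  let K : ℕ → Set (ℕ → ℕ) := fun n => {f | (∀ i, f i ≤ g i) ∧ ∀ k ≤ n, t (br f k) = true}
  have hcl : ∀ k, IsClosed {f : ℕ → ℕ | t (br f k) = true} := by
    intro k
    have : Continuous (fun f : ℕ → ℕ => br f k) := by
      refine continuous_discrete_rng.2 fun l => ?_
      rw [isOpen_iff_mem_nhds]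
      intro f hf
      have h1 : {f' : ℕ → ℕ | ∀ i < k, f' i = f i} ∈ 𝓝 f := by
        have : {f' : ℕ → ℕ | ∀ i < k, f' i = f i} = ⋂ i ∈ Finset.range k, {f' | f' i = f i} := by
          ext f'; simp
        rw [this, Filter.biInter_finset_mem]
        intro i _
        have hc : Continuous (fun f : ℕ → ℕ => f i) := continuous_apply i
        exact ((isOpen_discrete ({f i} : Set ℕ)).preimage hc).mem_nhds rfl
      refine mem_of_superset h1 fun f' hf' => ?_
      have : br f' k = br f k := (br_eq_iff _ _ _).2 hf'
      show br f' k = l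
      rw [this]; exact hf
    exact (isClosed_discrete ({l : List ℕ | t l = true})).preimage this
  have hKcl : ∀ n, IsClosed (K n) := by
    intro n
    have : K n = (⋂ i, {f : ℕ → ℕ | f i ≤ g i}) ∩ ⋂ k, ⋂ _ : k ≤ n, {f | t (br f k) = true} := by
      ext f; simp [K]
    rw [this]
    refine IsClosed.inter (isClosed_iInter fun i => ?_) (isClosed_iInter fun k => isClosed_iInter
      fun _ => hcl k)
    have hc : Continuous (fun f : ℕ → ℕ => f i) := continuous_apply i
    exact (isClosed_discrete (Set.Iic (g i))).preimage hc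
  have hcomp : IsCompact (K 0) := by
    refine IsCompact.of_isClosed_subset (isCompact_univ_pi fun i => (Set.finite_Iic (g i)).isCompact)
      (hKcl 0) ?_
    intro f hf i _
    exact hf.1 i
  have hne : ∀ n, (K n).Nonempty := by
    intro n
    obtain ⟨s, hs, hk⟩ := hgood n
    rw [mem_sections_iff] at hs
    obtain ⟨hs1, hs2⟩ := hs
    rw [length_br] at hs1 hs2 hk
    refine ⟨fun i => s.getD i 0, ?_, ?_⟩
    · intro i
      by_cases hi : i < n + 1
      · have := hs2 i hi
        rwa [getD_br g hi] at this
      · show s.getD i 0 ≤ g i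
        rw [List.getD_eq_default _ _ (by omega)]
        exact Nat.zero_le _
    · intro k hkn
      have h1 : br (fun i => s.getD i 0) k = s.take k := by
        refine List.ext_getElem (by simp; omega) fun i h1 h2 => ?_
        have hik : i < k := by simpa using h1
        have : (br (fun i => s.getD i 0) k)[i] = s.getD i 0 := by simp [br]
        rw [this, List.getD_eq_getElem _ _ (by omega)]
        simp
      rw [h1]
      exact hk k (by rw [Finset.mem_range]; omega)
  obtain ⟨f, hf⟩ := IsCompact.nonempty_iInter_of_sequence_nonempty_isCompact_isClosed K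
    (fun n f hf => ⟨hf.1, fun k hk => hf.2 k (by omega)⟩) hne hcomp hKcl
  refine ht ⟨f, fun n => ?_⟩
  exact (mem_iInter.1 hf n).2 n le_rfl

end Pool.Agent.TH288.NB
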